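import Pool.Agent.SS.DiscB

/-!
# The discriminant of a superelliptic point
-/

set_option autoImplicit false

open Polynomial NumberField Module

namespace Pool.Agent.SS

section

variable {k : Type} [Field k] [NumberField k] {L : Type} [Field L] [NumberField L] [Algebra k L]
  {K : Type} [Field K] [NumberField K] [Algebra L K] {r : ℕ}

/-- the ideal of the zeros of a polynomial over `k` -/
noncomputable abbrev zf (f : (𝓞 k)[X]) (x : L) : Ideal (𝓞 L) :=
  zid (aeval x (f.map (algebraMap (𝓞 k) k))) f.natDegree x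

omit [NumberField k] in
/-- a prime which divides exactly one of the ideals, exactly once, is ramified -/
theorem exists_above (fs : Fin r → (𝓞 k)[X]) (A B : Fin r → Fin r → (𝓞 k)[X])
    (d : Fin r → Fin r → 𝓞 k) (hAB : ∀ i j, i ≠ j → A i j * fs i + B i j * fs j = C (d i j))
    (b : 𝓞 k) (hbl : ∀ i, (fs i).leadingCoeff ∣ b) (hbd : ∀ i j, i ≠ j → d i j ∣ b) (N : ℕ)
    (hN : 1 ≤ N) (x : L) (y : K)
    (hy : y ^ N = algebraMap L K (∏ i, aeval x ((fs i).map (algebraMap (𝓞 k) k))))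
    (i : Fin r) (q : Ideal (𝓞 L)) (hq : q.IsMaximal) (hbq : algebraMap (𝓞 k) (𝓞 L) b ∉ q)
    (hz : zf (fs i) x ≤ q) (hz2 : ¬ zf (fs i) x ≤ q ^ 2) :
    (∃ Q : Ideal (𝓞 K), Q.IsMaximal ∧ Q.comap (algebraMap (𝓞 L) (𝓞 K)) = q ∧
      Q ^ N ∣ q.map (algebraMap (𝓞 L) (𝓞 K))) ∧ ∀ j, j ≠ i → ¬ zf (fs j) x ≤ q := by
  classical
  have hqp : q.IsPrime := hq.isPrime
  have hdvd : ∀ c : 𝓞 k, c ∣ b → algebraMap (𝓞 k) (𝓞 L) c ∉ q := by
    rintro c ⟨c', rfl⟩ hc
    exact hbq (by rw [map_mul]; exact Ideal.mul_mem_right _ _ hc)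
  -- the denominator
  obtain ⟨j₀, hj₀, hj₀q⟩ : ∃ j₀ ∈ RefW.denIdealOf x, j₀ ∉ q := by
    by_contra h
    push Not at h
    exact hdvd _ (hbl i) (lead_mem (fs i) x q h hz)
  have hex : ∀ j, ∃ w : 𝓞 L, (w : L) = aeval x ((fs j).map (algebraMap (𝓞 k) k)) *
      (j₀ : L) ^ (fs j).natDegree := by
    intro j
    obtain ⟨w, hw⟩ := eval_int (fs j) x _ le_rfl _ (Ideal.pow_mem_pow hj₀ _)
    exact ⟨w, hw⟩
  choose w hw using hex
  have hwz : ∀ j, w j ∈ zf (fs j) x := fun j =>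
    ⟨j₀ ^ (fs j).natDegree, Ideal.pow_mem_pow hj₀ _, hw j⟩
  have hwi : w i ∈ q := hz (hwz i)
  have hwj : ∀ j, j ≠ i → w j ∉ q := by
    intro j hj h
    exact hdvd _ (hbd i j hj.symm) (common_mem (fs i) (fs j) (A i j) (B i j) (d i j)
      (hAB i j hj.symm) x q j₀ hj₀ hj₀q _ _ (w i) (w j) (hw i) (hw j) hwi h)
  have hwi2 : w i ∉ q ^ 2 := by
    intro h
    apply hz2
    intro w' hw'
    obtain ⟨j', hj', hw''⟩ := hw'
    refine pow_cancel q hq 2 w' (j₀ ^ (fs i).natDegree) (fun h' => hj₀q (hqp.mem_of_pow_mem _ h'))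
      ?_
    have h1 : w' * j₀ ^ (fs i).natDegree = w i * j' := by
      apply RingOfIntegers.ext
      change (w' : L) * (j₀ : L) ^ (fs i).natDegree = (w i : L) * (j' : L)
      rw [hw'', hw i]
      ring
    rw [h1]
    exact Ideal.mul_mem_right _ _ h
  refine ⟨?_, fun j hj h => hwj j hj (h (hwz j))⟩
  -- the product
  set W : 𝓞 L := ∏ j, w j with hW
  set n : ℕ := ∑ j, (fs j).natDegree with hn
  have hWq : W ∈ q := by
    rw [hW, ← Finset.mul_prod_erase Finset.univ w (Finset.mem_univ i)]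
    exact Ideal.mul_mem_right _ _ hwi
  have hrest : ∏ j ∈ Finset.univ.erase i, w j ∉ q := by
    intro h
    obtain ⟨j, hj, hjq⟩ := (Ideal.IsPrime.prod_mem_iff (hp := hqp)).1 h
    exact hwj j (Finset.ne_of_mem_erase hj) hjq
  have hW2 : W ∉ q ^ 2 := by
    intro h
    rw [hW, ← Finset.mul_prod_erase Finset.univ w (Finset.mem_univ i)] at h
    exact hwi2 (pow_cancel q hq 2 _ _ hrest h)
  have hWL : (W : L) = (∏ j, aeval x ((fs j).map (algebraMap (𝓞 k) k))) * (j₀ : L) ^ n := by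
    have h1 : (W : L) = ∏ j, (w j : L) := map_prod (algebraMap (𝓞 L) L) w Finset.univ
    rw [h1, Finset.prod_congr rfl fun j _ => hw j, Finset.prod_mul_distrib,
      Finset.prod_pow_eq_pow_sum]
  -- the element `y j₀ ^ n`
  have hYint : IsIntegral ℤ (y * algebraMap L K ((j₀ : L) ^ n)) := by
    refine IsIntegral.of_pow (n := N) (by omega) ?_
    have h1 : (y * algebraMap L K ((j₀ : L) ^ n)) ^ N =
        algebraMap L K ((W * j₀ ^ (n * (N - 1)) : 𝓞 L) : L) := by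
      have e1 : ((W * j₀ ^ (n * (N - 1)) : 𝓞 L) : L) = (W : L) * (j₀ : L) ^ (n * (N - 1)) := rfl
      rw [mul_pow, hy, e1, hWL, ← map_pow, ← map_mul]
      congr 1
      have e2 : ((j₀ : L) ^ n) ^ N = (j₀ : L) ^ n * (j₀ : L) ^ (n * (N - 1)) := by
        rw [← pow_mul, ← pow_add]
        congr 1
        obtain ⟨N', rfl⟩ : ∃ N', N = N' + 1 := ⟨N - 1, by omega⟩
        simp
        ring
      rw [e2]
      ring
    rw [h1]
    exact (RingOfIntegers.isIntegral_coe _).map (IsScalarTower.toAlgHom ℤ L K)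
  set Y : 𝓞 K := ⟨y * algebraMap L K ((j₀ : L) ^ n), hYint⟩ with hY
  refine ramified N q hq W hWq hW2 (j₀ ^ (n * (N - 1)))
    (fun h => hj₀q (hqp.mem_of_pow_mem _ h)) Y ?_
  apply RingOfIntegers.ext
  change (y * algebraMap L K ((j₀ : L) ^ n)) ^ N =
    algebraMap L K ((W * j₀ ^ (n * (N - 1)) : 𝓞 L) : L)
  have e1 : ((W * j₀ ^ (n * (N - 1)) : 𝓞 L) : L) = (W : L) * (j₀ : L) ^ (n * (N - 1)) := rfl
  rw [mul_pow, hy, e1, hWL, ← map_pow, ← map_mul]
  congr 1
  have e2 : ((j₀ : L) ^ n) ^ N = (j₀ : L) ^ n * (j₀ : L) ^ (n * (N - 1)) := by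
    rw [← pow_mul, ← pow_add]
    congr 1
    obtain ⟨N', rfl⟩ : ∃ N', N = N' + 1 := ⟨N - 1, by omega⟩
    simp
    ring
  rw [e2]
  ring

end

/-- The discriminant of a superelliptic point: every prime number which divides the norm of an ideal
of the zeros exactly once contributes its power `N - 1`. -/
theorem disc_ge_aux (k : Type) [Field k] [NumberField k] {r : ℕ} (fs : Fin r → (𝓞 k)[X])
    (hfs : ∀ i, fs i ≠ 0)
    (hco : ∀ i j, i ≠ j → IsCoprime ((fs i).map (algebraMap (𝓞 k) k))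
      ((fs j).map (algebraMap (𝓞 k) k))) (N : ℕ) (hN : 1 ≤ N) : ∃ C : ℝ, 0 < C ∧
    ∀ (L K : Type) [Field L] [NumberField L] [Algebra k L] [Field K] [NumberField K]
      [Algebra L K] (x : L) (y : K),
      y ^ N = algebraMap L K (∏ i, aeval x ((fs i).map (algebraMap (𝓞 k) k))) →
      ((∏ i, (sq (Ideal.absNorm (zf (fs i) x)) : ℝ)) ^ (N - 1)) *
        |(discr L : ℝ)| ^ finrank L K ≤ C * |(discr K : ℝ)| ∧
      (C < ∏ i, (sq (Ideal.absNorm (zf (fs i) x)) : ℝ) → N ≤ finrank L K) := by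
  classical
  -- the constants
  have hbez : ∀ i j : Fin r, ∃ (A B : (𝓞 k)[X]) (d : 𝓞 k), d ≠ 0 ∧
      (i ≠ j → A * fs i + B * fs j = C d) := by
    intro i j
    by_cases hij : i = j
    · exact ⟨0, 0, 1, one_ne_zero, fun h => absurd hij h⟩
    · obtain ⟨A, B, d, hd, h⟩ := exists_bezout (fs i) (fs j) (hco i j hij)
      exact ⟨A, B, d, hd, fun _ => h⟩
  choose A B d hd hAB using hbez
  set b : 𝓞 k := (∏ i, (fs i).leadingCoeff) * ∏ i, ∏ j, d i j with hb
  have hb0 : b ≠ 0 := by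
    refine mul_ne_zero (Finset.prod_ne_zero_iff.2 fun i _ => leadingCoeff_ne_zero.2 (hfs i)) ?_
    exact Finset.prod_ne_zero_iff.2 fun i _ => Finset.prod_ne_zero_iff.2 fun j _ => hd i j
  have hbl : ∀ i, (fs i).leadingCoeff ∣ b := fun i =>
    (Finset.dvd_prod_of_mem (fun i => (fs i).leadingCoeff) (Finset.mem_univ i)).mul_right _
  have hbd : ∀ i j, i ≠ j → d i j ∣ b := fun i j _ =>
    ((Finset.dvd_prod_of_mem (fun j => d i j) (Finset.mem_univ j)).trans
      (Finset.dvd_prod_of_mem (fun i => ∏ j, d i j) (Finset.mem_univ i))).mul_left _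
  set Δ : ℕ := (Algebra.norm ℤ b).natAbs with hΔ
  have hΔ0 : Δ ≠ 0 := Int.natAbs_ne_zero.2 (Algebra.norm_ne_zero_iff.2 hb0)
  have hΔ1 : (1 : ℝ) ≤ Δ := by exact_mod_cast Nat.one_le_iff_ne_zero.2 hΔ0
  refine ⟨max (((Δ : ℝ) ^ r) ^ (N - 1)) ((Δ : ℝ) ^ r), by positivity, ?_⟩
  intro L K _ _ _ _ _ _ x y hy
  set z : Fin r → Ideal (𝓞 L) := fun i => zf (fs i) x with hz
  set P : Fin r → Finset ℕ := fun i =>
    ((Ideal.absNorm (z i)).primeFactors.filter
      (fun p => (Ideal.absNorm (z i)).factorization p = 1)).filter (fun p => ¬ p ∣ Δ) with hP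
  set I : Finset (Σ _ : Fin r, ℕ) := Finset.univ.sigma P with hI
  -- the primes
  have hex : ∀ s : Σ _ : Fin r, ℕ, ∃ (q : Ideal (𝓞 L)) (Q : Ideal (𝓞 K)), s ∈ I →
      s.2.Prime ∧ q.IsMaximal ∧ Ideal.absNorm q = s.2 ∧ z s.1 ≤ q ∧ (∀ j, j ≠ s.1 → ¬ z j ≤ q) ∧
      Q.IsMaximal ∧ Q.comap (algebraMap (𝓞 L) (𝓞 K)) = q ∧
      Q ^ N ∣ q.map (algebraMap (𝓞 L) (𝓞 K)) := by
    rintro ⟨i, p⟩
    by_cases hs : (⟨i, p⟩ : Σ _ : Fin r, ℕ) ∈ I
    · rw [hI, Finset.mem_sigma] at hs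
      have hs2 := hs.2
      simp only [hP, Finset.mem_filter] at hs2
      obtain ⟨⟨h1, h2⟩, h3⟩ := hs2
      have hp := Nat.mem_primeFactors.1 h1
      obtain ⟨q, hqp, hzq, hqn, hzq2⟩ := exists_prime_of_norm (z i) p hp.1 hp.2.1 (by
        intro h
        have := (hp.1.pow_dvd_iff_le_factorization hp.2.2).1 h
        omega)
      have hq0 : q ≠ ⊥ := by
        rintro rfl
        rw [Ideal.absNorm_bot] at hqn
        exact hp.1.ne_zero hqn.symm
      have hqm : q.IsMaximal := hqp.isMaximal hq0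
      have hbq : algebraMap (𝓞 k) (𝓞 L) b ∉ q := fun h =>
        h3 (bad_dvd k q hqp p hp.1 hqn b h)
      obtain ⟨⟨Q, hQ1, hQ2, hQ3⟩, hQ4⟩ := exists_above fs A B d hAB b hbl hbd N hN x y hy i q hqm
        hbq hzq hzq2
      exact ⟨q, Q, fun _ => ⟨hp.1, hqm, hqn, hzq, hQ4, hQ1, hQ2, hQ3⟩⟩
    · exact ⟨⊥, ⊥, fun h => absurd h hs⟩
  choose q Q hqQ using hex
  -- distinct primes
  have hne : ∀ s ∈ I, ∀ t ∈ I, s ≠ t → Q s ≠ Q t := by
    intro s hs t ht hst h
    obtain ⟨-, -, h3, h4, h5, -, h7, -⟩ := hqQ s hs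
    obtain ⟨-, -, h3', h4', h5', -, h7', -⟩ := hqQ t ht
    have hq : q s = q t := by rw [← h7, ← h7', h]
    have h8 : s.2 = t.2 := by rw [← h3, ← h3', hq]
    have h9 : s.1 = t.1 := by
      by_contra h9
      exact h5 t.1 (Ne.symm h9) (by rw [hq]; exact h4')
    exact hst (Sigma.ext h9 (heq_of_eq h8))
  -- the different
  have hdiff : ∏ s ∈ I, Q s ^ (N - 1) ∣ differentIdeal (𝓞 L) (𝓞 K) := by
    refine Finset.prod_dvd_of_coprime ?_ fun s hs => ?_
    · intro s hs t ht hst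
      change IsCoprime (Q s ^ (N - 1)) (Q t ^ (N - 1))
      refine IsCoprime.pow ?_
      rw [Ideal.isCoprime_iff_sup_eq]
      exact (hqQ s hs).2.2.2.2.2.1.coprime_of_ne (hqQ t ht).2.2.2.2.2.1 (hne s hs t ht hst)
    · obtain ⟨h1, h2, h3, -, -, -, -, h8⟩ := hqQ s hs
      have hq0 : q s ≠ ⊥ := by
        intro h
        rw [h, Ideal.absNorm_bot] at h3
        exact h1.ne_zero h3.symm
      have := h2
      exact pow_sub_one_dvd_differentIdeal (𝓞 L) (Q s) N hq0 h8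
  have hdisc : (discr K).natAbs = Ideal.absNorm (differentIdeal (𝓞 L) (𝓞 K)) *
      (discr L).natAbs ^ finrank L K :=
    natAbs_discr_eq_absNorm_differentIdeal_mul_natAbs_discr_pow L (𝓞 L) K (𝓞 K)
  have hdiff0 : Ideal.absNorm (differentIdeal (𝓞 L) (𝓞 K)) ≠ 0 := by
    intro h
    rw [h, zero_mul] at hdisc
    exact discr_ne_zero K (Int.natAbs_eq_zero.1 hdisc)
  have hnorm : ∏ s ∈ I, s.2 ^ (N - 1) ≤ Ideal.absNorm (differentIdeal (𝓞 L) (𝓞 K)) := by
    calc ∏ s ∈ I, s.2 ^ (N - 1) ≤ ∏ s ∈ I, Ideal.absNorm (Q s) ^ (N - 1) := by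
          refine Finset.prod_le_prod' fun s hs => ?_
          obtain ⟨h1, h2, h3, -, -, h6, h7, -⟩ := hqQ s hs
          refine Nat.pow_le_pow_left (norm_above (Q s) h6.isPrime s.2 h1 ?_) _
          have h8 : ((s.2 : ℕ) : 𝓞 L) ∈ (Q s).comap (algebraMap (𝓞 L) (𝓞 K)) := by
            rw [h7, ← h3]
            exact Ideal.absNorm_mem _
          have h9 := Ideal.mem_comap.1 h8
          rwa [map_natCast] at h9
      _ = Ideal.absNorm (∏ s ∈ I, Q s ^ (N - 1)) := by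
          rw [map_prod]
          exact Finset.prod_congr rfl fun s _ => (map_pow _ _ _).symm
      _ ≤ _ := Nat.le_of_dvd (Nat.pos_of_ne_zero hdiff0) (map_dvd _ hdiff)
  -- the squarefree parts
  have hsq : ∀ i, sq (Ideal.absNorm (z i)) ≤ Δ * ∏ p ∈ P i, p := by
    intro i
    unfold sq
    rw [← Finset.prod_filter_mul_prod_filter_not ((Ideal.absNorm (z i)).primeFactors.filter
      (fun p => (Ideal.absNorm (z i)).factorization p = 1)) (fun p => p ∣ Δ)]
    refine Nat.mul_le_mul_right _ (Nat.le_of_dvd (Nat.pos_of_ne_zero hΔ0) ?_)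
    refine Finset.prod_primes_dvd Δ (fun p hp => ?_) fun p hp => ?_
    · rw [Finset.mem_filter, Finset.mem_filter] at hp
      exact (Nat.prime_of_mem_primeFactors hp.1.1).prime
    · exact (Finset.mem_filter.1 hp).2
  have hprod : ∏ i, sq (Ideal.absNorm (z i)) ≤ Δ ^ r * ∏ s ∈ I, s.2 := by
    calc ∏ i, sq (Ideal.absNorm (z i)) ≤ ∏ i, (Δ * ∏ p ∈ P i, p) :=
          Finset.prod_le_prod' fun i _ => hsq i
      _ = Δ ^ r * ∏ s ∈ I, s.2 := by
          rw [Finset.prod_mul_distrib, Finset.prod_const, Finset.card_univ, Fintype.card_fin,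
            hI, Finset.prod_sigma]
  have hfin : (∏ i, sq (Ideal.absNorm (z i))) ^ (N - 1) * (discr L).natAbs ^ finrank L K ≤
      (Δ ^ r) ^ (N - 1) * (discr K).natAbs := by
    rw [hdisc, ← mul_assoc]
    refine Nat.mul_le_mul_right _ ?_
    calc (∏ i, sq (Ideal.absNorm (z i))) ^ (N - 1) ≤ (Δ ^ r * ∏ s ∈ I, s.2) ^ (N - 1) :=
          Nat.pow_le_pow_left hprod _
      _ = (Δ ^ r) ^ (N - 1) * ∏ s ∈ I, s.2 ^ (N - 1) := by
          rw [mul_pow, Finset.prod_pow]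
      _ ≤ _ := Nat.mul_le_mul_left _ hnorm
  have h1 : |(discr L : ℝ)| = ((discr L).natAbs : ℝ) := by
    rw [Nat.cast_natAbs, Int.cast_abs]
  have h2 : |(discr K : ℝ)| = ((discr K).natAbs : ℝ) := by
    rw [Nat.cast_natAbs, Int.cast_abs]
  refine ⟨?_, fun hlt => ?_⟩
  · rw [h1, h2]
    refine le_trans ?_ (mul_le_mul_of_nonneg_right (le_max_left _ _) (Nat.cast_nonneg _))
    exact_mod_cast hfin
  · have hne' : I.Nonempty := by
      by_contra h
      rw [Finset.not_nonempty_iff_eq_empty] at h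
      rw [h, Finset.prod_empty, mul_one] at hprod
      have h3 : (∏ i, (sq (Ideal.absNorm (zf (fs i) x)) : ℝ)) ≤ (Δ : ℝ) ^ r := by
        exact_mod_cast hprod
      exact absurd (hlt.trans_le h3) (not_lt.2 (le_max_right _ _))
    obtain ⟨s, hs⟩ := hne'
    obtain ⟨h3, -, h5, -, -, h8, h9, h10⟩ := hqQ s hs
    have h11 : Ideal.absNorm (Q s) ^ N ∣ s.2 ^ finrank L K := by
      have h12 := map_dvd Ideal.absNorm h10
      rwa [map_pow, Ideal.absNorm_algebraMap, ← IsFractionRing.finrank_eq (𝓞 L) L (𝓞 K) K, h5]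
        at h12
    have h12 : s.2 ∣ Ideal.absNorm (Q s) := by
      have h13 : Ideal.absNorm (Q s) ≠ 1 := by
        rw [Ne, Ideal.absNorm_eq_one_iff]
        exact h8.ne_top
      rcases Nat.eq_zero_or_pos N with h0 | h0
      · omega
      · have h14 : Ideal.absNorm (Q s) ∣ s.2 ^ finrank L K :=
          (dvd_pow_self _ h0.ne').trans h11
        obtain ⟨t, -, ht⟩ := (Nat.dvd_prime_pow h3).1 h14
        have h15 : t ≠ 0 := by
          rintro rfl
          exact h13 (by rw [ht, pow_zero])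
        rw [ht]
        exact dvd_pow_self _ h15
    exact (Nat.pow_dvd_pow_iff_le_right h3.one_lt).1 ((pow_dvd_pow_of_dvd h12 N).trans h11)

/-- The discriminant of a superelliptic point: every prime number which divides the norm of an ideal
of the zeros exactly once contributes its power `N - 1`. -/
theorem disc_ge' (k : Type) [Field k] [NumberField k] {r : ℕ} (fs : Fin r → (𝓞 k)[X])
    (hsq : Squarefree ((∏ i, fs i).map (algebraMap (𝓞 k) k))) (N : ℕ) (hN : 1 ≤ N) :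
    ∃ C : ℝ, 0 < C ∧ ∀ (L : Type) [Field L] [NumberField L] [Algebra k L]
      (K : Type) [Field K] [NumberField K] [Algebra L K] (x : L) (y : K),
      y ^ N = algebraMap L K (aeval x ((∏ i, fs i).map (algebraMap (𝓞 k) k))) →
      aeval x ((∏ i, fs i).map (algebraMap (𝓞 k) k)) ≠ 0 →
      ((∏ i, (sq (Ideal.absNorm (zid (aeval x ((fs i).map (algebraMap (𝓞 k) k)))
        (fs i).natDegree x)) : ℝ)) ^ (N - 1)) *
        |(discr L : ℝ)| ^ finrank L K ≤ C * |(discr K : ℝ)| ∧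
      (C < ∏ i, (sq (Ideal.absNorm (zid (aeval x ((fs i).map (algebraMap (𝓞 k) k)))
        (fs i).natDegree x)) : ℝ) → N ≤ finrank L K) := by
  have hne : ∀ i, fs i ≠ 0 := by
    intro i h
    apply hsq.ne_zero
    rw [Finset.prod_eq_zero (Finset.mem_univ i) h, Polynomial.map_zero]
  have hco : ∀ i j, i ≠ j → IsCoprime ((fs i).map (algebraMap (𝓞 k) k))
      ((fs j).map (algebraMap (𝓞 k) k)) := by
    intro i j hij
    have h1 : fs i * fs j ∣ ∏ i, fs i := by
      rw [← Finset.mul_prod_erase Finset.univ fs (Finset.mem_univ i)]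
      exact mul_dvd_mul_left _ (Finset.dvd_prod_of_mem fs
        (Finset.mem_erase.2 ⟨Ne.symm hij, Finset.mem_univ j⟩))
    have h2 := hsq.squarefree_of_dvd (Polynomial.map_dvd (algebraMap (𝓞 k) k) h1)
    rw [Polynomial.map_mul] at h2
    exact (IsRelPrime.of_squarefree_mul h2).isCoprime
  obtain ⟨C, hC, h⟩ := disc_ge_aux k fs hne hco N hN
  refine ⟨C, hC, ?_⟩
  intro L _ _ _ K _ _ _ x y hy _
  refine h L K x y ?_
  rw [hy, Polynomial.map_prod, map_prod]

/-- The discriminant of a superelliptic point, without the statement on the degree. -/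
theorem disc_ge (k : Type) [Field k] [NumberField k] {r : ℕ} (fs : Fin r → (𝓞 k)[X])
    (hsq : Squarefree ((∏ i, fs i).map (algebraMap (𝓞 k) k))) (N : ℕ) (hN : 1 ≤ N) :
    ∃ C : ℝ, 0 < C ∧ ∀ (L : Type) [Field L] [NumberField L] [Algebra k L]
      (K : Type) [Field K] [NumberField K] [Algebra L K] (x : L) (y : K),
      y ^ N = algebraMap L K (aeval x ((∏ i, fs i).map (algebraMap (𝓞 k) k))) →
      aeval x ((∏ i, fs i).map (algebraMap (𝓞 k) k)) ≠ 0 →
      ((∏ i, (sq (Ideal.absNorm (zid (aeval x ((fs i).map (algebraMap (𝓞 k) k)))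
        (fs i).natDegree x)) : ℝ)) ^ (N - 1)) *
        |(discr L : ℝ)| ^ finrank L K ≤ C * |(discr K : ℝ)| := by
  obtain ⟨C, hC, h⟩ := disc_ge' k fs hsq N hN
  exact ⟨C, hC, fun L _ _ _ K _ _ _ x y hy h0 => (h L K x y hy h0).1⟩

end Pool.Agent.SS
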