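import Mathlib.RingTheory.DedekindDomain.Factorization
import Mathlib.RingTheory.Ideal.Norm.AbsNorm
import Mathlib.NumberTheory.NumberField.Basic
import Mathlib.Analysis.SpecialFunctions.Pow.NNReal

/-!
# The number of ideals of given norm
-/

set_option autoImplicit false

open NumberField IsDedekindDomain

namespace Pool.Agent.SS

/-- the exponent of `v` in an ideal -/
private noncomputable def cnt {M : Type} [Field M] [NumberField M] (I : Ideal (𝓞 M))
    (v : HeightOneSpectrum (𝓞 M)) : ℕ :=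
  open Classical in (Associates.mk v.asIdeal).count (Associates.mk I).factors

private theorem cnt_le {M : Type} [Field M] [NumberField M] {I J : Ideal (𝓞 M)} (hJ : J ≠ 0)
    (h : I ∣ J) (v : HeightOneSpectrum (𝓞 M)) : cnt I v ≤ cnt J v := by
  classical
  unfold cnt
  exact Associates.count_le_count_of_le (Associates.mk_ne_zero.2 hJ)
    (v.associates_irreducible) (Associates.mk_le_mk_of_dvd h)

private theorem cnt_inj {M : Type} [Field M] [NumberField M] {I J : Ideal (𝓞 M)} (hI : I ≠ 0)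
    (hJ : J ≠ 0) (h : ∀ v, cnt I v = cnt J v) : I = J := by
  rw [← Ideal.finprod_heightOneSpectrum_factorization hI,
    ← Ideal.finprod_heightOneSpectrum_factorization hJ]
  refine finprod_congr fun v => ?_
  unfold HeightOneSpectrum.maxPowDividing
  congr 1
  exact h v

/-- the divisors of an ideal -/
private theorem card_dvd_aux {M : Type} [Field M] [NumberField M] (J : Ideal (𝓞 M)) (hJ : J ≠ 0) :
    {I : Ideal (𝓞 M) | I ∣ J}.Finite ∧
      {I : Ideal (𝓞 M) | I ∣ J}.ncard ≤
        ∏ v ∈ (Ideal.finite_factors hJ).toFinset, (cnt J v + 1) := by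
  classical
  set S := (Ideal.finite_factors hJ).toFinset with hS
  let F : Ideal (𝓞 M) → ((v : S) → Fin (cnt J v.1 + 1)) := fun I v =>
    ⟨min (cnt I v.1) (cnt J v.1), by omega⟩
  have hinj : Set.InjOn F {I : Ideal (𝓞 M) | I ∣ J} := by
    intro I hI I' hI' h
    have hI0 : I ≠ 0 := ne_zero_of_dvd_ne_zero hJ hI
    have hI0' : I' ≠ 0 := ne_zero_of_dvd_ne_zero hJ hI'
    refine cnt_inj hI0 hI0' fun v => ?_
    by_cases hv : v ∈ S
    · have h1 := congrArg Fin.val (congrFun h ⟨v, hv⟩)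
      simp only [F] at h1
      rw [min_eq_left (cnt_le hJ hI v), min_eq_left (cnt_le hJ hI' v)] at h1
      exact h1
    · have h0 : cnt J v = 0 := by
        by_contra h0
        apply hv
        rw [hS, Set.Finite.mem_toFinset]
        exact (Associates.count_ne_zero_iff_dvd hJ v.irreducible).1 h0
      have h1 := cnt_le hJ hI v
      have h2 := cnt_le hJ hI' v
      omega
  refine ⟨Set.Finite.of_finite_image (Set.toFinite _) hinj, ?_⟩
  calc {I : Ideal (𝓞 M) | I ∣ J}.ncard = (F '' {I : Ideal (𝓞 M) | I ∣ J}).ncard :=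
        (Set.InjOn.ncard_image hinj).symm
    _ ≤ (Set.univ : Set ((v : S) → Fin (cnt J v.1 + 1))).ncard :=
        Set.ncard_le_ncard (Set.subset_univ _) Set.finite_univ
    _ = Fintype.card ((v : S) → Fin (cnt J v.1 + 1)) := by
        rw [Set.ncard_univ, Nat.card_eq_fintype_card]
    _ = ∏ v : S, (cnt J v.1 + 1) := by
        rw [Fintype.card_pi]
        simp
    _ = _ := Finset.prod_coe_sort S fun v => cnt J v + 1

private theorem norm_eq {M : Type} [Field M] [NumberField M] (J : Ideal (𝓞 M)) (hJ : J ≠ 0) :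
    Ideal.absNorm J =
      ∏ v ∈ (Ideal.finite_factors hJ).toFinset, Ideal.absNorm v.asIdeal ^ cnt J v := by
  classical
  conv_lhs => rw [← Ideal.finprod_heightOneSpectrum_factorization hJ]
  rw [finprod_eq_prod_of_mulSupport_subset (s := (Ideal.finite_factors hJ).toFinset), map_prod]
  · refine Finset.prod_congr rfl fun v _ => ?_
    unfold HeightOneSpectrum.maxPowDividing
    rw [map_pow]
    rfl
  · intro v hv
    rw [Set.Finite.coe_toFinset]
    by_contra h0
    apply hv
    have h1 : cnt J v = 0 := by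
      by_contra h1
      exact h0 ((Associates.count_ne_zero_iff_dvd hJ v.irreducible).1 h1)
    unfold HeightOneSpectrum.maxPowDividing
    change v.asIdeal ^ cnt J v = 1
    rw [h1, pow_zero]

/-- The number of divisors of an ideal. -/
theorem card_dvd (M : Type) [Field M] [NumberField M] (η : ℝ) (hη : 0 < η) : ∃ C : ℝ, 1 ≤ C ∧
    ∀ J : Ideal (𝓞 M), J ≠ 0 → {I : Ideal (𝓞 M) | I ∣ J}.Finite ∧
      ({I : Ideal (𝓞 M) | I ∣ J}.ncard : ℝ) ≤ C * (Ideal.absNorm J : ℝ) ^ η := by
  classical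
  have hlog2 : 0 < Real.log 2 := Real.log_pos one_lt_two
  obtain ⟨X, hX⟩ := exists_nat_ge ((2 : ℝ) ^ (1 / η))
  have hfin : {v : HeightOneSpectrum (𝓞 M) | Ideal.absNorm v.asIdeal ≤ X}.Finite := by
    refine Set.Finite.of_finite_image (f := fun v : HeightOneSpectrum (𝓞 M) => v.asIdeal) ?_
      fun v _ w _ h => HeightOneSpectrum.ext h
    refine (Ideal.finite_setOfPred_absNorm_le (S := 𝓞 M) X).subset ?_
    rintro _ ⟨v, hv, rfl⟩
    exact hv
  set K : ℝ := max 1 (1 / (η * Real.log 2)) with hK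
  have hK1 : 1 ≤ K := le_max_left _ _
  have hK2 : 1 ≤ K * (η * Real.log 2) := by
    have h1 : 1 / (η * Real.log 2) ≤ K := le_max_right _ _
    rwa [div_le_iff₀ (by positivity)] at h1
  set c : HeightOneSpectrum (𝓞 M) → ℝ := fun v => if Ideal.absNorm v.asIdeal ≤ X then K else 1
    with hc
  have hc1 : ∀ v, 1 ≤ c v := by
    intro v
    rw [hc]
    simp only
    split_ifs
    · exact hK1
    · exact le_rfl
  have hN : ∀ v : HeightOneSpectrum (𝓞 M), (2 : ℝ) ≤ Ideal.absNorm v.asIdeal := by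
    intro v
    have h1 : Ideal.absNorm v.asIdeal ≠ 0 := by
      rw [Ne, Ideal.absNorm_eq_zero_iff]
      exact v.ne_bot
    have h2 : Ideal.absNorm v.asIdeal ≠ 1 := by
      rw [Ne, Ideal.absNorm_eq_one_iff]
      exact v.isPrime.ne_top
    exact_mod_cast (by omega : 2 ≤ Ideal.absNorm v.asIdeal)
  have hloc : ∀ (v : HeightOneSpectrum (𝓞 M)) (a : ℕ),
      ((a : ℝ) + 1) ≤ c v * ((Ideal.absNorm v.asIdeal : ℝ) ^ a) ^ η := by
    intro v a
    have hN0 : (0 : ℝ) < Ideal.absNorm v.asIdeal := lt_of_lt_of_le two_pos (hN v)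
    rw [← Real.rpow_natCast, ← Real.rpow_mul hN0.le]
    by_cases h : Ideal.absNorm v.asIdeal ≤ X
    · have hcv : c v = K := by
        rw [hc]
        simp only
        rw [if_pos h]
      rw [hcv]
      have h1 : (2 : ℝ) ^ ((a : ℝ) * η) ≤ (Ideal.absNorm v.asIdeal : ℝ) ^ ((a : ℝ) * η) :=
        Real.rpow_le_rpow two_pos.le (hN v) (by positivity)
      have h2 : (a : ℝ) * η * Real.log 2 + 1 ≤ (2 : ℝ) ^ ((a : ℝ) * η) := by
        rw [Real.rpow_def_of_pos two_pos]
        have := Real.add_one_le_exp (Real.log 2 * (a * η))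
        linarith
      have h3 : (a : ℝ) + 1 ≤ K * ((a : ℝ) * η * Real.log 2 + 1) := by
        have h4 : (a : ℝ) * 1 ≤ a * (K * (η * Real.log 2)) :=
          mul_le_mul_of_nonneg_left hK2 (Nat.cast_nonneg _)
        nlinarith
      exact h3.trans (mul_le_mul_of_nonneg_left (h2.trans h1) (by linarith))
    · have hcv : c v = 1 := by
        rw [hc]
        simp only
        rw [if_neg h]
      rw [hcv, one_mul]
      have h1 : (X : ℝ) ≤ Ideal.absNorm v.asIdeal := by exact_mod_cast (not_le.1 h).le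
      have h2 : ((2 : ℝ) ^ (1 / η)) ^ ((a : ℝ) * η) ≤
          (Ideal.absNorm v.asIdeal : ℝ) ^ ((a : ℝ) * η) :=
        Real.rpow_le_rpow (by positivity) (hX.trans h1) (by positivity)
      have h3 : ((2 : ℝ) ^ (1 / η)) ^ ((a : ℝ) * η) = 2 ^ a := by
        rw [← Real.rpow_mul two_pos.le]
        have : 1 / η * ((a : ℝ) * η) = a := by
          field_simp
        rw [this, Real.rpow_natCast]
      rw [h3] at h2
      refine le_trans ?_ h2
      have h4 : a + 1 ≤ 2 ^ a := Nat.lt_two_pow_self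
      exact_mod_cast h4
  refine ⟨K ^ hfin.toFinset.card, one_le_pow₀ hK1, fun J hJ => ?_⟩
  obtain ⟨h1, h2⟩ := card_dvd_aux J hJ
  refine ⟨h1, ?_⟩
  set S := (Ideal.finite_factors hJ).toFinset with hS
  calc ({I : Ideal (𝓞 M) | I ∣ J}.ncard : ℝ) ≤ ((∏ v ∈ S, (cnt J v + 1) : ℕ) : ℝ) := by
        exact_mod_cast h2
    _ = ∏ v ∈ S, ((cnt J v : ℝ) + 1) := by push_cast; rfl
    _ ≤ ∏ v ∈ S, (c v * ((Ideal.absNorm v.asIdeal : ℝ) ^ cnt J v) ^ η) :=
        Finset.prod_le_prod (fun _ _ => by positivity) fun v _ => hloc v _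
    _ = (∏ v ∈ S, c v) * (Ideal.absNorm J : ℝ) ^ η := by
        rw [Finset.prod_mul_distrib, Real.finsetProd_rpow _ _ fun v _ => by positivity]
        congr 2
        rw [norm_eq J hJ]
        push_cast
        rfl
    _ ≤ K ^ hfin.toFinset.card * (Ideal.absNorm J : ℝ) ^ η := by
        refine mul_le_mul_of_nonneg_right ?_ (by positivity)
        have h3 : ∏ v ∈ S, c v = ∏ v ∈ S.filter (fun v => Ideal.absNorm v.asIdeal ≤ X), K := by
          rw [Finset.prod_filter]
        rw [h3, Finset.prod_const]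
        refine pow_le_pow_right₀ hK1 (Finset.card_le_card fun v hv => ?_)
        rw [Set.Finite.mem_toFinset]
        exact (Finset.mem_filter.1 hv).2

/-- The number of ideals of given norm. -/
theorem card_norm (M : Type) [Field M] [NumberField M] (η : ℝ) (hη : 0 < η) : ∃ C : ℝ, 0 < C ∧
    ∀ t : ℕ, 1 ≤ t → {w : Ideal (𝓞 M) | Ideal.absNorm w = t}.Finite ∧
      ({w : Ideal (𝓞 M) | Ideal.absNorm w = t}.ncard : ℝ) ≤ C * (t : ℝ) ^ η := by
  have hd : (0 : ℝ) < Module.finrank ℚ M := Nat.cast_pos.2 Module.finrank_pos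
  obtain ⟨C, hC1, hC⟩ := card_dvd M (η / Module.finrank ℚ M) (by positivity)
  refine ⟨C, by linarith, fun t ht => ?_⟩
  have ht0 : (Ideal.span {(t : 𝓞 M)} : Ideal (𝓞 M)) ≠ 0 := by
    rw [Ne, Ideal.zero_eq_bot, Ideal.span_singleton_eq_bot]
    exact_mod_cast (by omega : t ≠ 0)
  obtain ⟨h1, h2⟩ := hC _ ht0
  have hsub : {w : Ideal (𝓞 M) | Ideal.absNorm w = t} ⊆
      {w : Ideal (𝓞 M) | w ∣ Ideal.span {(t : 𝓞 M)}} := by
    intro w hw
    have h3 : Ideal.absNorm w = t := hw
    change w ∣ Ideal.span {(t : 𝓞 M)}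
    rw [Ideal.dvd_span_singleton, ← h3]
    exact Ideal.absNorm_mem w
  refine ⟨h1.subset hsub, ?_⟩
  have h4 : ({w : Ideal (𝓞 M) | Ideal.absNorm w = t}.ncard : ℝ) ≤
      ({w : Ideal (𝓞 M) | w ∣ Ideal.span {(t : 𝓞 M)}}.ncard : ℝ) := by
    exact_mod_cast Set.ncard_le_ncard hsub h1
  refine h4.trans (h2.trans (le_of_eq ?_))
  congr 1
  have h5 : Ideal.absNorm (Ideal.span {(t : 𝓞 M)}) = t ^ Module.finrank ℚ M := by
    rw [Ideal.absNorm_span_singleton]
    have h6 : (t : 𝓞 M) = algebraMap ℤ (𝓞 M) t := by simp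
    rw [h6, Algebra.norm_algebraMap, RingOfIntegers.rank, Int.natAbs_pow, Int.natAbs_natCast]
  rw [h5]
  push_cast
  rw [← Real.rpow_natCast, ← Real.rpow_mul (Nat.cast_nonneg _)]
  congr 1
  field_simp

end Pool.Agent.SS
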