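import Mathlib

/-!
# Squarefull numbers
-/

set_option autoImplicit false

namespace Pool.Agent.SS

/-- squarefull numbers -/
def Full (t : ℕ) : Prop := ∀ p : ℕ, p.Prime → p ∣ t → p ^ 2 ∣ t

/-- the product of the primes which divide `a` exactly once -/
def sq (a : ℕ) : ℕ := ∏ p ∈ a.primeFactors.filter (fun p => a.factorization p = 1), p

theorem sq_pos (a : ℕ) : 0 < sq a :=
  Finset.prod_pos fun _ hp => (Nat.prime_of_mem_primeFactors (Finset.mem_filter.1 hp).1).pos

/-- the squarefree part and the squarefull part -/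
theorem exists_full (a : ℕ) (ha : a ≠ 0) : ∃ t : ℕ, a = sq a * t ∧ Full t ∧
    Nat.Coprime (sq a) t := by
  refine ⟨∏ p ∈ a.primeFactors.filter (fun p => ¬ a.factorization p = 1), p ^ a.factorization p,
    ?_, ?_, ?_⟩
  · conv_lhs => rw [← Nat.prod_factorization_pow_eq_self ha]
    rw [Finsupp.prod, Nat.support_factorization,
      ← Finset.prod_filter_mul_prod_filter_not a.primeFactors (fun p => a.factorization p = 1)]
    congr 1
    unfold sq
    refine Finset.prod_congr rfl fun p hp => ?_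
    rw [(Finset.mem_filter.1 hp).2, pow_one]
  · intro q hq hdvd
    obtain ⟨p, hp, hqp⟩ := (hq.prime.dvd_finsetProd_iff _).1 hdvd
    have h1 := hq.dvd_of_dvd_pow hqp
    rw [Finset.mem_filter] at hp
    have hpp := Nat.prime_of_mem_primeFactors hp.1
    have h2 : q = p := (Nat.prime_dvd_prime_iff_eq hq hpp).1 h1
    subst h2
    refine dvd_trans (pow_dvd_pow q ?_)
      (Finset.dvd_prod_of_mem (fun p => p ^ a.factorization p) (Finset.mem_filter.2 hp))
    have h3 : a.factorization q ≠ 0 := by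
      have := (Nat.mem_primeFactors.1 hp.1)
      exact (this.1.factorization_pos_of_dvd this.2.2 this.2.1).ne'
    have := hp.2
    omega
  · unfold sq
    refine Nat.Coprime.prod_left fun p hp => Nat.Coprime.prod_right fun q hq => ?_
    rw [Finset.mem_filter] at hp hq
    refine Nat.Coprime.pow_right _ ?_
    rw [Nat.coprime_primes (Nat.prime_of_mem_primeFactors hp.1)
      (Nat.prime_of_mem_primeFactors hq.1)]
    rintro rfl
    exact hq.2 hp.2

/-- a squarefull number is the product of a square and a cube -/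
theorem Full.exists_sq_cube {t : ℕ} (ht : Full t) (h0 : t ≠ 0) :
    ∃ a b : ℕ, 1 ≤ a ∧ 1 ≤ b ∧ t = a ^ 2 * b ^ 3 := by
  classical
  -- exponents: `v = 2 u + 3 w` with `w = v % 2`
  have hv : ∀ p ∈ t.primeFactors, 2 ≤ t.factorization p := by
    intro p hp
    have hpp := Nat.mem_primeFactors.1 hp
    exact (hpp.1.pow_dvd_iff_le_factorization h0).1 (ht p hpp.1 hpp.2.1)
  refine ⟨∏ p ∈ t.primeFactors, p ^ ((t.factorization p - 3 * (t.factorization p % 2)) / 2),
    ∏ p ∈ t.primeFactors, p ^ (t.factorization p % 2), ?_, ?_, ?_⟩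
  · exact Nat.one_le_iff_ne_zero.2 (Finset.prod_ne_zero_iff.2 fun p hp =>
      pow_ne_zero _ (Nat.prime_of_mem_primeFactors hp).ne_zero)
  · exact Nat.one_le_iff_ne_zero.2 (Finset.prod_ne_zero_iff.2 fun p hp =>
      pow_ne_zero _ (Nat.prime_of_mem_primeFactors hp).ne_zero)
  · conv_lhs => rw [← Nat.prod_factorization_pow_eq_self h0]
    rw [Finsupp.prod, Nat.support_factorization, ← Finset.prod_pow, ← Finset.prod_pow,
      ← Finset.prod_mul_distrib]
    refine Finset.prod_congr rfl fun p hp => ?_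
    rw [← pow_mul, ← pow_mul, ← pow_add]
    congr 1
    have := hv p hp
    omega

/-- The sum over the squarefull numbers. -/
theorem sum_full (s η : ℝ) (h : 1 / 2 + η ≤ s) (hη : 0 < η) : ∃ C : ℝ, 0 < C ∧
    ∀ Z : ℝ, 1 ≤ Z → ∀ S : Finset ℕ, (∀ t ∈ S, Z ≤ t ∧ Full t) →
      ∑ t ∈ S, (t : ℝ) ^ (-s) ≤ C * Z ^ (1 / 2 + η - s) := by
  classical
  have hs1 : Summable fun a : ℕ => (a : ℝ) ^ (-(1 + 2 * η)) := by
    rw [Real.summable_nat_rpow]
    linarith
  have hs2 : Summable fun b : ℕ => (b : ℝ) ^ (-(3 / 2 + 3 * η)) := by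
    rw [Real.summable_nat_rpow]
    linarith
  set A : ℝ := ∑' a : ℕ, (a : ℝ) ^ (-(1 + 2 * η)) with hA
  set B : ℝ := ∑' b : ℕ, (b : ℝ) ^ (-(3 / 2 + 3 * η)) with hB
  have hA0 : 0 ≤ A := tsum_nonneg fun a => by positivity
  have hB0 : 0 ≤ B := tsum_nonneg fun b => by positivity
  refine ⟨A * B + 1, by positivity, fun Z hZ S hS => ?_⟩
  have hZ0 : 0 < Z := by linarith
  have hpos : ∀ t ∈ S, (0 : ℝ) < t := fun t ht => lt_of_lt_of_le hZ0 (hS t ht).1
  have hne : ∀ t ∈ S, t ≠ 0 := by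
    intro t ht h0
    have := hpos t ht
    rw [h0] at this
    simp at this
  have h1 : ∑ t ∈ S, (t : ℝ) ^ (-s) ≤
      (∑ t ∈ S, (t : ℝ) ^ (-(1 / 2 + η))) * Z ^ (1 / 2 + η - s) := by
    rw [Finset.sum_mul]
    refine Finset.sum_le_sum fun t ht => ?_
    have h2 : (-s) = -(1 / 2 + η) + (1 / 2 + η - s) := by ring
    conv_lhs => rw [h2]
    rw [Real.rpow_add (hpos t ht)]
    refine mul_le_mul_of_nonneg_left ?_ (by positivity)
    exact Real.rpow_le_rpow_of_nonpos hZ0 (hS t ht).1 (by linarith)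
  refine h1.trans (mul_le_mul_of_nonneg_right ?_ (by positivity))
  -- the whole sum
  have h3 : ∀ t : ℕ, ∃ ab : ℕ × ℕ, t ∈ S → 1 ≤ ab.1 ∧ 1 ≤ ab.2 ∧ t = ab.1 ^ 2 * ab.2 ^ 3 := by
    intro t
    by_cases ht : t ∈ S
    · obtain ⟨a, b, h1, h2, h3⟩ := (hS t ht).2.exists_sq_cube (hne t ht)
      exact ⟨(a, b), fun _ => ⟨h1, h2, h3⟩⟩
    · exact ⟨(0, 0), fun h => absurd h ht⟩
  choose g hg using h3
  have hinj : Set.InjOn g S := by
    intro t ht t' ht' h
    rw [(hg t ht).2.2, (hg t' ht').2.2, h]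
  obtain ⟨N, hN⟩ : ∃ N : ℕ, ∀ t ∈ S, (g t).1 < N ∧ (g t).2 < N := by
    refine ⟨(S.sup fun t => (g t).1 + (g t).2) + 1, fun t ht => ?_⟩
    have h1 : (g t).1 + (g t).2 ≤ S.sup fun t => (g t).1 + (g t).2 :=
      Finset.le_sup (f := fun t => (g t).1 + (g t).2) ht
    constructor <;> omega
  have h4 : ∑ t ∈ S, (t : ℝ) ^ (-(1 / 2 + η)) ≤
      ∑ ab ∈ Finset.range N ×ˢ Finset.range N,
        (ab.1 : ℝ) ^ (-(1 + 2 * η)) * (ab.2 : ℝ) ^ (-(3 / 2 + 3 * η)) := by
    have h5 : ∑ t ∈ S, (t : ℝ) ^ (-(1 / 2 + η)) = ∑ ab ∈ S.image g,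
        (ab.1 : ℝ) ^ (-(1 + 2 * η)) * (ab.2 : ℝ) ^ (-(3 / 2 + 3 * η)) := by
      rw [Finset.sum_image hinj]
      refine Finset.sum_congr rfl fun t ht => ?_
      obtain ⟨k1, k2, k3⟩ := hg t ht
      conv_lhs => rw [k3]
      push_cast
      rw [Real.mul_rpow (by positivity) (by positivity), ← Real.rpow_natCast,
        ← Real.rpow_natCast, ← Real.rpow_mul (Nat.cast_nonneg _),
        ← Real.rpow_mul (Nat.cast_nonneg _)]
      congr 2
      · push_cast
        ring
      · push_cast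
        ring
    rw [h5]
    refine Finset.sum_le_sum_of_subset_of_nonneg ?_ fun _ _ _ => by positivity
    intro ab hab
    obtain ⟨t, ht, rfl⟩ := Finset.mem_image.1 hab
    rw [Finset.mem_product, Finset.mem_range, Finset.mem_range]
    exact hN t ht
  have h6 : ∑ ab ∈ Finset.range N ×ˢ Finset.range N,
        (ab.1 : ℝ) ^ (-(1 + 2 * η)) * (ab.2 : ℝ) ^ (-(3 / 2 + 3 * η)) ≤ A * B := by
    rw [Finset.sum_product' (Finset.range N) (Finset.range N)
      (fun a b => (a : ℝ) ^ (-(1 + 2 * η)) * (b : ℝ) ^ (-(3 / 2 + 3 * η))), ← Finset.sum_mul_sum]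
    exact mul_le_mul (hs1.sum_le_tsum _ fun _ _ => by positivity)
      (hs2.sum_le_tsum _ fun _ _ => by positivity)
      (Finset.sum_nonneg fun _ _ => by positivity) hA0
  linarith

end Pool.Agent.SS
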