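import Pool.Agent.SS.Zid
import Pool.Agent.AAL.HtUp

/-!
# The norm of the ideal of the zeros divides the norm of a value of the form
-/

set_option autoImplicit false

open Polynomial NumberField IntermediateField Module Pool.Agent.AA

namespace Pool.Agent.SS

/-- the norm of an ideal with two generators at a prime number -/
private theorem norm_pair_le {K : Type} [Field K] [NumberField K] (p : ℕ) [Fact p.Prime]
    (c a : 𝓞 K) : ‖((Ideal.absNorm (Ideal.span {c, a}) : ℤ) : ℂ_[p])‖ ≤
      ∏ σ : K →+* ℂ_[p], max ‖σ (c : K)‖ ‖σ (a : K)‖ := by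
  have hQ : 0 ≤ ∏ σ : K →+* ℂ_[p], max ‖σ (c : K)‖ ‖σ (a : K)‖ :=
    Finset.prod_nonneg fun σ _ => le_trans (norm_nonneg _) (le_max_left _ _)
  refine norm_induction (Ideal.span {c, a})
    (fun m => ‖(m : ℂ_[p])‖ ≤ ∏ σ : K →+* ℂ_[p], max ‖σ (c : K)‖ ‖σ (a : K)‖) ?_ ?_ ?_ ?_
  · simpa using hQ
  · intro s t hs ht
    push_cast
    exact (IsUltrametricDist.norm_add_le_max _ _).trans (max_le hs ht)
  · intro r s hs
    push_cast
    rw [norm_mul]
    have h1 : ‖(r : ℂ_[p])‖ ≤ 1 := by
      rw [padic_norm_int]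
      exact Padic.norm_int_le_one r
    calc ‖(r : ℂ_[p])‖ * ‖(s : ℂ_[p])‖ ≤ 1 * ‖(s : ℂ_[p])‖ :=
          mul_le_mul_of_nonneg_right h1 (norm_nonneg _)
      _ ≤ _ := by rw [one_mul]; exact hs
  · intro z hz
    obtain ⟨u, v, rfl⟩ := Ideal.mem_span_pair.1 hz
    have h1 : ‖((Algebra.norm ℤ (u * c + v * a) : ℤ) : ℂ_[p])‖ =
        ∏ σ : K →+* ℂ_[p], ‖σ ((u * c + v * a : 𝓞 K) : K)‖ :=
      (SST.prodK_norm_prod ℂ_[p] _).symm
    rw [h1]
    refine Finset.prod_le_prod (fun σ _ => norm_nonneg _) fun σ _ => ?_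
    have e1 : ((u * c + v * a : 𝓞 K) : K) = (u : K) * (c : K) + (v : K) * (a : K) := rfl
    rw [e1, map_add, map_mul, map_mul]
    refine (IsUltrametricDist.norm_add_le_max _ _).trans ?_
    rw [norm_mul, norm_mul]
    refine max_le_max ?_ ?_
    · have := RefW.norm_le_one_of_ringOfIntegers p σ u
      exact mul_le_of_le_one_left (norm_nonneg _) this
    · have := RefW.norm_le_one_of_ringOfIntegers p σ v
      exact mul_le_of_le_one_left (norm_nonneg _) this

/-- the function of the coefficients -/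
private theorem rootOf {k : Type} [Field k] [NumberField k] (n : ℕ) (F : (𝓞 k)[X])
    (x : AlgebraicClosure k) (hx : finrank k (IntermediateField.adjoin k {x}) = n)
    (hF : F.natDegree = n) (hFx : aeval x (F.map (algebraMap (𝓞 k) k)) = 0) :
    RefW.RootOf (fun i : Fin (n + 1) => F.coeff i) (IntermediateField.adjoin k {x})
      (AdjoinSimple.gen k x) where
  gen := by
    apply IntermediateField.lift_injective (IntermediateField.adjoin k {x})
    rw [IntermediateField.lift_adjoin_simple, IntermediateField.lift_top,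
      AdjoinSimple.coe_gen]
  deg := hx
  root := by
    have h1 : aeval (AdjoinSimple.gen k x) (F.map (algebraMap (𝓞 k) k)) = 0 := by
      apply (algebraMap (IntermediateField.adjoin k {x}) (AlgebraicClosure k)).injective
      rw [map_zero, ← aeval_algebraMap_apply, AdjoinSimple.algebraMap_gen]
      exact hFx
    rw [aeval_eq_sum_range' (n := n + 1)
      (Nat.lt_succ_of_le ((natDegree_map_le).trans hF.le))] at h1
    rw [← h1, ← Fin.sum_univ_eq_sum_range (fun i => (F.map (algebraMap (𝓞 k) k)).coeff i •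
      AdjoinSimple.gen k x ^ i)]
    refine Finset.sum_congr rfl fun i _ => ?_
    rw [coeff_map, Algebra.smul_def]

/-- the norm of the denominator ideal divides the norm of the leading coefficient -/
theorem den_dvd {k : Type} [Field k] [NumberField k] (n : ℕ) (F : (𝓞 k)[X])
    (x : AlgebraicClosure k) (hx : finrank k (IntermediateField.adjoin k {x}) = n)
    (hF : F.natDegree = n) (hF0 : F ≠ 0) (hFx : aeval x (F.map (algebraMap (𝓞 k) k)) = 0) :
    Ideal.absNorm (RefW.denIdealOf (AdjoinSimple.gen k x)) ∣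
      (Algebra.norm ℤ F.leadingCoeff).natAbs := by
  set K := IntermediateField.adjoin k {x} with hK
  set y : K := AdjoinSimple.gen k x with hy
  have hroot := rootOf n F x hx hF hFx
  have hlc : F.coeff n = F.leadingCoeff := by rw [leadingCoeff, hF]
  have hlc0 : F.leadingCoeff ≠ 0 := leadingCoeff_ne_zero.2 hF0
  have hG0 : (fun i : Fin (n + 1) => F.coeff i) ≠ 0 := by
    intro h
    apply hlc0
    rw [← hlc]
    exact congrFun h (Fin.last n)
  obtain ⟨c, a, ha0, hca, hJ⟩ := exists_repr y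
  have haK : (a : K) ≠ 0 := by
    intro h
    exact ha0 (by exact_mod_cast h)
  set m : ℕ := Ideal.absNorm (RefW.denIdealOf y) with hm
  set N : ℤ := Algebra.norm ℤ F.leadingCoeff with hN
  have key : ∀ (p : ℕ) [Fact p.Prime], ‖(N : ℚ_[p])‖ ≤ ‖((m : ℤ) : ℚ_[p])‖ := by
    intro p _
    have h1 := link_padic hG0 hroot p
    simp only [Fin.val_last, hlc] at h1
    have h2 := norm_pair_le p c a
    have h3 : ∏ σ : K →+* ℂ_[p], max ‖σ (c : K)‖ ‖σ (a : K)‖ =
        (∏ σ : K →+* ℂ_[p], ‖σ (a : K)‖) * ∏ σ : K →+* ℂ_[p], max 1 ‖σ y‖ := by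
      rw [← Finset.prod_mul_distrib]
      refine Finset.prod_congr rfl fun σ _ => ?_
      rw [hca, map_mul, norm_mul, mul_max_of_nonneg _ _ (norm_nonneg _), mul_one, max_comm]
    have h4 : ∏ σ : K →+* ℂ_[p], ‖σ (a : K)‖ =
        ‖((Ideal.absNorm (Ideal.span {c, a}) : ℤ) : ℂ_[p])‖ * ‖((m : ℤ) : ℂ_[p])‖ := by
      rw [SST.prodK_norm_prod ℂ_[p] a, ← norm_mul, ← Int.cast_mul, ← Nat.cast_mul, hm,
        ← map_mul, ← hJ, Ideal.absNorm_span_singleton]
      rw [padic_norm_int, padic_norm_int]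
      rcases Int.natAbs_eq (Algebra.norm ℤ a) with h | h
      · rw [← h]
      · conv_lhs => rw [h]
        rw [Int.cast_neg, norm_neg]
    have h5 : ∏ ρ : k →+* ℂ_[p], ‖ρ (F.leadingCoeff : k)‖ = ‖(N : ℂ_[p])‖ :=
      SST.prodK_norm_prod ℂ_[p] F.leadingCoeff
    rw [h5] at h1
    rw [h3] at h2
    set A := ∏ σ : K →+* ℂ_[p], ‖σ (a : K)‖ with hA
    set M := ∏ σ : K →+* ℂ_[p], max 1 ‖σ y‖ with hM
    have hApos : 0 < A := Finset.prod_pos fun σ _ => by
      rw [norm_pos_iff, Ne, map_eq_zero]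
      exact haK
    have hm0 : 0 ≤ ‖((m : ℤ) : ℂ_[p])‖ := norm_nonneg _
    -- `1 ≤ M ‖m‖`
    have h6 : 1 ≤ M * ‖((m : ℤ) : ℂ_[p])‖ := by
      have h7 : A ≤ A * M * ‖((m : ℤ) : ℂ_[p])‖ := by
        calc A = _ := h4
          _ ≤ A * M * ‖((m : ℤ) : ℂ_[p])‖ := mul_le_mul_of_nonneg_right h2 hm0
      rw [mul_assoc] at h7
      exact (le_mul_iff_one_le_right hApos).1 h7
    rw [← padic_norm_int, ← padic_norm_int]
    calc ‖(N : ℂ_[p])‖ = ‖(N : ℂ_[p])‖ * 1 := (mul_one _).symm
      _ ≤ ‖(N : ℂ_[p])‖ * (M * ‖((m : ℤ) : ℂ_[p])‖) :=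
        mul_le_mul_of_nonneg_left h6 (norm_nonneg _)
      _ = (‖(N : ℂ_[p])‖ * M) * ‖((m : ℤ) : ℂ_[p])‖ := by ring
      _ ≤ 1 * ‖((m : ℤ) : ℂ_[p])‖ := mul_le_mul_of_nonneg_right h1 hm0
      _ = ‖((m : ℤ) : ℂ_[p])‖ := one_mul _
  rw [Nat.dvd_iff_prime_pow_dvd_dvd]
  intro p e hp hpe
  have : Fact p.Prime := ⟨hp⟩
  have h1 : ‖((m : ℤ) : ℚ_[p])‖ ≤ (p : ℝ) ^ (-e : ℤ) := by
    rw [Padic.norm_int_le_pow_iff_dvd]
    exact_mod_cast hpe
  have h2 := (key p).trans h1
  rw [Padic.norm_int_le_pow_iff_dvd] at h2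
  exact Int.natCast_dvd.1 (by exact_mod_cast h2)

/-- a polynomial of minimal degree over the algebraic closure -/
private theorem split {k : Type} [Field k] [NumberField k] (f : k[X]) (e : AlgebraicClosure k)
    (hdeg : finrank k (IntermediateField.adjoin k {e}) = f.natDegree) (hfe : aeval e f = 0) :
    f.map (algebraMap k (AlgebraicClosure k)) =
      C (algebraMap k (AlgebraicClosure k) f.leadingCoeff) *
        ∏ τ : IntermediateField.adjoin k {e} →ₐ[k] AlgebraicClosure k,
          (X - C (τ (AdjoinSimple.gen k e))) := by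
  have hint : IsIntegral k e := Algebra.IsIntegral.isIntegral e
  have hmin : f = C f.leadingCoeff * minpoly k e := by
    refine Polynomial.eq_leadingCoeff_mul_of_monic_of_dvd_of_natDegree_le (minpoly.monic hint)
      (minpoly.dvd k e hfe) ?_
    rw [← IntermediateField.adjoin.finrank hint, hdeg]
  have htop : IntermediateField.adjoin k {AdjoinSimple.gen k e} =
      (⊤ : IntermediateField k (IntermediateField.adjoin k {e})) := by
    apply IntermediateField.lift_injective (IntermediateField.adjoin k {e})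
    rw [IntermediateField.lift_adjoin_simple, IntermediateField.lift_top,
      AdjoinSimple.coe_gen]
  have h1 := RefW.denIdeal_minpoly (AdjoinSimple.gen k e) htop
  rw [IntermediateField.minpoly_gen] at h1
  conv_lhs => rw [hmin]
  rw [Polynomial.map_mul, map_C, h1]

/-- the resultant identity -/
private theorem res_eq {k : Type} [Field k] [NumberField k] (F f : k[X])
    (x e : AlgebraicClosure k) (hF : finrank k (IntermediateField.adjoin k {x}) = F.natDegree)
    (hFx : aeval x F = 0)
    (hf : finrank k (IntermediateField.adjoin k {e}) = f.natDegree) (hfe : aeval e f = 0) :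
    f.leadingCoeff ^ F.natDegree * Algebra.norm k (aeval (AdjoinSimple.gen k e) F) =
      (-1) ^ (F.natDegree * f.natDegree) * (F.leadingCoeff ^ f.natDegree *
        Algebra.norm k (aeval (AdjoinSimple.gen k x) f)) := by
  classical
  have hfdx : FiniteDimensional k (IntermediateField.adjoin k {x}) := inferInstance
  have hfde : FiniteDimensional k (IntermediateField.adjoin k {e}) := inferInstance
  have h1 := split F x hF hFx
  have h2 := split f e hf hfe
  apply (algebraMap k (AlgebraicClosure k)).injective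
  rw [map_mul, map_mul, map_mul, map_pow, map_pow, map_pow, map_neg, map_one,
    Algebra.norm_eq_prod_embeddings k (AlgebraicClosure k),
    Algebra.norm_eq_prod_embeddings k (AlgebraicClosure k)]
  have h3 : ∀ τ : IntermediateField.adjoin k {e} →ₐ[k] AlgebraicClosure k,
      τ (aeval (AdjoinSimple.gen k e) F) =
        algebraMap k (AlgebraicClosure k) F.leadingCoeff *
          ∏ σ : IntermediateField.adjoin k {x} →ₐ[k] AlgebraicClosure k,
            (τ (AdjoinSimple.gen k e) - σ (AdjoinSimple.gen k x)) := by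
    intro τ
    rw [← Polynomial.aeval_algHom_apply, ← eval_map_algebraMap, h1, eval_mul, eval_C, eval_prod]
    simp only [eval_sub, eval_X, eval_C]
  have h4 : ∀ σ : IntermediateField.adjoin k {x} →ₐ[k] AlgebraicClosure k,
      σ (aeval (AdjoinSimple.gen k x) f) =
        algebraMap k (AlgebraicClosure k) f.leadingCoeff *
          ∏ τ : IntermediateField.adjoin k {e} →ₐ[k] AlgebraicClosure k,
            (σ (AdjoinSimple.gen k x) - τ (AdjoinSimple.gen k e)) := by
    intro σ
    rw [← Polynomial.aeval_algHom_apply, ← eval_map_algebraMap, h2, eval_mul, eval_C, eval_prod]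
    simp only [eval_sub, eval_X, eval_C]
  rw [Finset.prod_congr rfl fun τ _ => h3 τ, Finset.prod_congr rfl fun σ _ => h4 σ,
    Finset.prod_mul_distrib, Finset.prod_mul_distrib, Finset.prod_const, Finset.prod_const,
    Finset.card_univ, Finset.card_univ, AlgHom.card, AlgHom.card, hF, hf]
  have h5 : ∏ τ : IntermediateField.adjoin k {e} →ₐ[k] AlgebraicClosure k,
      ∏ σ : IntermediateField.adjoin k {x} →ₐ[k] AlgebraicClosure k,
        (τ (AdjoinSimple.gen k e) - σ (AdjoinSimple.gen k x)) =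
      (-1) ^ (F.natDegree * f.natDegree) *
      ∏ σ : IntermediateField.adjoin k {x} →ₐ[k] AlgebraicClosure k,
        ∏ τ : IntermediateField.adjoin k {e} →ₐ[k] AlgebraicClosure k,
        (σ (AdjoinSimple.gen k x) - τ (AdjoinSimple.gen k e)) := by
    rw [Finset.prod_comm]
    have h6 : ∀ (σ : IntermediateField.adjoin k {x} →ₐ[k] AlgebraicClosure k)
        (τ : IntermediateField.adjoin k {e} →ₐ[k] AlgebraicClosure k),
        τ (AdjoinSimple.gen k e) - σ (AdjoinSimple.gen k x) =
          (-1) * (σ (AdjoinSimple.gen k x) - τ (AdjoinSimple.gen k e)) := by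
      intro σ τ
      ring
    rw [Finset.prod_congr rfl fun σ _ => Finset.prod_congr rfl fun τ _ => h6 σ τ]
    simp only [Finset.prod_mul_distrib, Finset.prod_const, Finset.card_univ, AlgHom.card, hF, hf]
    rw [← pow_mul, mul_comm f.natDegree]
  rw [h5]
  ring

/-- The norm of the ideal of the zeros divides the norm of the value of the form. -/
theorem norm_dvd {k : Type} [Field k] [NumberField k] (m : ℕ) (F : (𝓞 k)[X])
    (x : AlgebraicClosure k) (hx : finrank k (IntermediateField.adjoin k {x}) = m)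
    (hF : F.natDegree = m) (hF0 : F ≠ 0) (hFx : aeval x (F.map (algebraMap (𝓞 k) k)) = 0)
    (f : (𝓞 k)[X]) (e : AlgebraicClosure k)
    (he : finrank k (IntermediateField.adjoin k {e}) = f.natDegree)
    (hfe : aeval e (f.map (algebraMap (𝓞 k) k)) = 0)
    (Φ : 𝓞 (IntermediateField.adjoin k {e}))
    (hΦ : (Φ : IntermediateField.adjoin k {e}) =
      algebraMap k (IntermediateField.adjoin k {e}) (f.leadingCoeff : k) ^ m *
        aeval (AdjoinSimple.gen k e) (F.map (algebraMap (𝓞 k) k))) :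
    Ideal.absNorm (zid (aeval (AdjoinSimple.gen k x) (f.map (algebraMap (𝓞 k) k)))
      f.natDegree (AdjoinSimple.gen k x)) ∣ (Algebra.norm ℤ Φ).natAbs := by
  set n : ℕ := f.natDegree with hn
  have hinj : Function.Injective (algebraMap (𝓞 k) k) := RingOfIntegers.coe_injective
  have hlcf : (f.map (algebraMap (𝓞 k) k)).leadingCoeff = (f.leadingCoeff : k) :=
    leadingCoeff_map_of_injective hinj f
  have hlcF : (F.map (algebraMap (𝓞 k) k)).leadingCoeff = (F.leadingCoeff : k) :=
    leadingCoeff_map_of_injective hinj F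
  have hdf : (f.map (algebraMap (𝓞 k) k)).natDegree = n := natDegree_map_eq_of_injective hinj f
  have hdF : (F.map (algebraMap (𝓞 k) k)).natDegree = m := by
    rw [natDegree_map_eq_of_injective hinj F, hF]
  -- `e` has degree at least one
  have hn1 : 1 ≤ n := by
    rw [← he]
    exact finrank_pos
  -- the resultant
  have hres := res_eq (F.map (algebraMap (𝓞 k) k)) (f.map (algebraMap (𝓞 k) k)) x e
    (by rw [hdF]; exact hx) hFx (by rw [hdf]; exact he) hfe
  rw [hdf, hdF, hlcf, hlcF] at hres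
  have hres2 := congrArg (fun z : k => |Algebra.norm ℚ z|) hres
  simp only [map_mul, map_pow, abs_mul, abs_pow] at hres2
  rw [Algebra.norm_norm, Algebra.norm_norm] at hres2
  have hneg : |Algebra.norm ℚ (-1 : k)| = 1 := by
    have h1 : |Algebra.norm ℚ (-1 : k)| ^ 2 = 1 := by
      rw [← abs_pow, ← map_pow]
      simp
    have h2 := abs_nonneg (Algebra.norm ℚ (-1 : k))
    nlinarith
  -- the three norms
  obtain ⟨u, hu⟩ := den_dvd m F x hx hF hF0 hFx
  have hz := absNorm_zid (AdjoinSimple.gen k x) n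
    (aeval (AdjoinSimple.gen k x) (f.map (algebraMap (𝓞 k) k))) (by
      intro j hj
      obtain ⟨t, ht⟩ := eval_integral n
        (f.map (algebraMap (𝓞 k) (𝓞 (IntermediateField.adjoin k {x})))) (natDegree_map_le) j hj
      refine ⟨t, ?_⟩
      rw [ht]
      congr 1
      rw [aeval_map_algebraMap, aeval_map_algebraMap])
  have hNF : |Algebra.norm ℚ (F.leadingCoeff : k)| =
      ((Algebra.norm ℤ F.leadingCoeff).natAbs : ℚ) := by
    rw [← Algebra.coe_norm_int, Nat.cast_natAbs, Int.cast_abs]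
  have hNf : |Algebra.norm ℚ (f.leadingCoeff : k)| =
      ((Algebra.norm ℤ f.leadingCoeff).natAbs : ℚ) := by
    rw [← Algebra.coe_norm_int, Nat.cast_natAbs, Int.cast_abs]
  have hNΦ : ((Algebra.norm ℤ Φ).natAbs : ℚ) =
      |Algebra.norm ℚ (f.leadingCoeff : k)| ^ (m * n) *
        |Algebra.norm ℚ (aeval (AdjoinSimple.gen k e) (F.map (algebraMap (𝓞 k) k)))| := by
    rw [Nat.cast_natAbs, Int.cast_abs, Algebra.coe_norm_int, hΦ, map_mul, abs_mul, map_pow,
      abs_pow]
    congr 1
    rw [← Algebra.norm_norm (R := ℚ) (S := k), Algebra.norm_algebraMap, map_pow, abs_pow, he,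
      ← pow_mul, mul_comm]
  refine ⟨(Algebra.norm ℤ f.leadingCoeff).natAbs ^ (m * (n - 1)) * u ^ n, ?_⟩
  have hfin : ((Algebra.norm ℤ Φ).natAbs : ℚ) =
      ((Ideal.absNorm (zid (aeval (AdjoinSimple.gen k x) (f.map (algebraMap (𝓞 k) k))) n
        (AdjoinSimple.gen k x)) * ((Algebra.norm ℤ f.leadingCoeff).natAbs ^ (m * (n - 1)) *
          u ^ n) : ℕ) : ℚ) := by
    push_cast
    rw [hNΦ, hz, ← hNf]
    have e1 : m * n = m * (n - 1) + m := by
      obtain ⟨n', hn'⟩ : ∃ n', n = n' + 1 := ⟨n - 1, by omega⟩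
      rw [hn']
      simp
      ring
    rw [e1, pow_add]
    have h5 : |Algebra.norm ℚ (F.leadingCoeff : k)| =
        (Ideal.absNorm (RefW.denIdealOf (AdjoinSimple.gen k x)) : ℚ) * u := by
      rw [hNF, hu]
      push_cast
      rfl
    rw [h5, hneg, one_pow, one_mul] at hres2
    linear_combination |Algebra.norm ℚ (f.leadingCoeff : k)| ^ (m * (n - 1)) * hres2
  exact_mod_cast hfin

end Pool.Agent.SS
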