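import Pool.Agent.SS.Zid
import Pool.Agent.SS.Full

/-!
# The prime factors of the ideals of the zeros
-/

set_option autoImplicit false

open Polynomial NumberField Module

namespace Pool.Agent.SS

section gen

variable {k : Type} [Field k] [NumberField k]

/-- Bezout over the ring of integers -/
theorem exists_bezout (f g : (𝓞 k)[X])
    (h : IsCoprime (f.map (algebraMap (𝓞 k) k)) (g.map (algebraMap (𝓞 k) k))) :
    ∃ (A B : (𝓞 k)[X]) (d : 𝓞 k), d ≠ 0 ∧ A * f + B * g = C d := by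
  obtain ⟨a, b, hab⟩ := h
  obtain ⟨s, hs, ha⟩ := IsLocalization.integerNormalization_spec (nonZeroDivisors (𝓞 k)) a
  obtain ⟨t, ht, hb⟩ := IsLocalization.integerNormalization_spec (nonZeroDivisors (𝓞 k)) b
  have hinj : Function.Injective (Polynomial.map (algebraMap (𝓞 k) k)) :=
    Polynomial.map_injective _ RingOfIntegers.coe_injective
  refine ⟨C t * IsLocalization.integerNormalization (nonZeroDivisors (𝓞 k)) a,
    C s * IsLocalization.integerNormalization (nonZeroDivisors (𝓞 k)) b, s * t,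
    mul_ne_zero (nonZeroDivisors.ne_zero hs) (nonZeroDivisors.ne_zero ht), ?_⟩
  apply hinj
  have ha' : (IsLocalization.integerNormalization (nonZeroDivisors (𝓞 k)) a).map
      (algebraMap (𝓞 k) k) = C (algebraMap (𝓞 k) k s) * a := by
    rw [ha]
    ext i
    simp [Polynomial.coeff_smul, Algebra.smul_def]
  have hb' : (IsLocalization.integerNormalization (nonZeroDivisors (𝓞 k)) b).map
      (algebraMap (𝓞 k) k) = C (algebraMap (𝓞 k) k t) * b := by
    rw [hb]
    ext i
    simp [Polynomial.coeff_smul, Algebra.smul_def]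
  rw [Polynomial.map_add, Polynomial.map_mul, Polynomial.map_mul, Polynomial.map_mul,
    Polynomial.map_mul, map_C, map_C, map_C, ha', hb', map_mul, C_mul]
  linear_combination C (algebraMap (𝓞 k) k s) * C (algebraMap (𝓞 k) k t) * hab

end gen

section rel

variable {k : Type} [Field k] [NumberField k] {L : Type} [Field L] [NumberField L] [Algebra k L]

omit [NumberField k] [NumberField L] in
/-- the value at `x` -/
theorem aeval_coe (f : (𝓞 k)[X]) (x : L) :
    aeval x (f.map (algebraMap (𝓞 k) k)) = aeval x (f.map (algebraMap (𝓞 k) (𝓞 L))) := by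
  rw [aeval_map_algebraMap, aeval_map_algebraMap]

omit [NumberField k] in
/-- the products are integral -/
theorem eval_int (f : (𝓞 k)[X]) (x : L) (n : ℕ) (hf : f.natDegree ≤ n) :
    ∀ j ∈ (RefW.denIdealOf x) ^ n, ∃ t : 𝓞 L,
      (t : L) = aeval x (f.map (algebraMap (𝓞 k) k)) * (j : L) := by
  rw [aeval_coe]
  exact eval_integral n _ (natDegree_map_le.trans hf)

omit [NumberField k] in
/-- the primes which divide the denominator and the ideal of the zeros -/
theorem lead_mem (f : (𝓞 k)[X]) (x : L) (q : Ideal (𝓞 L)) [hq : q.IsPrime]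
    (hJ : RefW.denIdealOf x ≤ q)
    (hz : zid (aeval x (f.map (algebraMap (𝓞 k) k))) f.natDegree x ≤ q) :
    algebraMap (𝓞 k) (𝓞 L) f.leadingCoeff ∈ q := by
  obtain ⟨j₁, hj₁, j₂, hj₂, t, ht, h1⟩ := den_coprime x
  have htq : t ∉ q := by
    intro h
    apply hq.ne_top
    rw [Ideal.eq_top_iff_one, ← h1]
    exact Ideal.add_mem _ (hJ hj₁) h
  have hj₂q : j₂ ∈ q := hJ hj₂
  set n := f.natDegree with hn
  have hjn : j₂ ^ n ∈ (RefW.denIdealOf x) ^ n := Ideal.pow_mem_pow hj₂ n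
  obtain ⟨w, hw⟩ := eval_int f x n le_rfl _ hjn
  have hwq : w ∈ q := hz ⟨_, hjn, hw⟩
  have hsum : w = ∑ i ∈ Finset.range (n + 1),
      algebraMap (𝓞 k) (𝓞 L) (f.coeff i) * t ^ i * j₂ ^ (n - i) := by
    apply RingOfIntegers.ext
    change (w : L) = algebraMap (𝓞 L) L _
    rw [hw, aeval_coe, aeval_eq_sum_range' (n := n + 1)
      (Nat.lt_succ_of_le natDegree_map_le), Finset.sum_mul, map_sum]
    refine Finset.sum_congr rfl fun i hi => ?_
    rw [Finset.mem_range] at hi
    rw [map_mul, map_mul, map_pow, map_pow, coeff_map, Algebra.smul_def]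
    have e1 : algebraMap (𝓞 L) L t = (j₂ : L) * x := ht
    have e2 : ((j₂ ^ n : 𝓞 L) : L) = (j₂ : L) ^ i * (j₂ : L) ^ (n - i) := by
      rw [← pow_add]
      have : i + (n - i) = n := by omega
      rw [this]
      rfl
    rw [e1, e2, mul_pow]
    ring
  rw [Finset.sum_range_succ, Nat.sub_self, pow_zero, mul_one] at hsum
  have h2 : ∑ i ∈ Finset.range n, algebraMap (𝓞 k) (𝓞 L) (f.coeff i) * t ^ i * j₂ ^ (n - i) ∈
      q := by
    refine Ideal.sum_mem _ fun i hi => ?_
    rw [Finset.mem_range] at hi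
    exact Ideal.mul_mem_left _ _ (Ideal.pow_mem_of_mem _ hj₂q _ (by omega))
  have h3 : algebraMap (𝓞 k) (𝓞 L) (f.coeff n) * t ^ n ∈ q := by
    have h4 := Ideal.sub_mem _ hwq h2
    rw [hsum] at h4
    simpa using h4
  rcases hq.mem_or_mem h3 with h4 | h4
  · exact h4
  · exact absurd (hq.mem_of_pow_mem _ h4) htq

omit [NumberField k] in
/-- the primes which divide two of the ideals of the zeros -/
theorem common_mem (f g : (𝓞 k)[X]) (A B : (𝓞 k)[X]) (d : 𝓞 k) (hAB : A * f + B * g = C d) (x : L)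
    (q : Ideal (𝓞 L)) [hq : q.IsPrime] (j₀ : 𝓞 L) (hj₀ : j₀ ∈ RefW.denIdealOf x) (hj₀q : j₀ ∉ q)
    (n m : ℕ) (u v : 𝓞 L) (hu : (u : L) = aeval x (f.map (algebraMap (𝓞 k) k)) * (j₀ : L) ^ n)
    (hv : (v : L) = aeval x (g.map (algebraMap (𝓞 k) k)) * (j₀ : L) ^ m) (huq : u ∈ q)
    (hvq : v ∈ q) : algebraMap (𝓞 k) (𝓞 L) d ∈ q := by
  obtain ⟨a, ha⟩ := eval_int A x A.natDegree le_rfl _ (Ideal.pow_mem_pow hj₀ _)
  obtain ⟨b, hb⟩ := eval_int B x B.natDegree le_rfl _ (Ideal.pow_mem_pow hj₀ _)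
  have key : algebraMap (𝓞 k) (𝓞 L) d * j₀ ^ (A.natDegree + B.natDegree + n + m) =
      a * u * j₀ ^ (B.natDegree + m) + b * v * j₀ ^ (A.natDegree + n) := by
    apply RingOfIntegers.ext
    have e1 : ((algebraMap (𝓞 k) (𝓞 L) d * j₀ ^ (A.natDegree + B.natDegree + n + m) : 𝓞 L) : L) =
      algebraMap k L (d : k) * (j₀ : L) ^ (A.natDegree + B.natDegree + n + m) := by
      have h0 : algebraMap (𝓞 L) L (algebraMap (𝓞 k) (𝓞 L) d) =
          algebraMap k L (algebraMap (𝓞 k) k d) := by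
        rw [← IsScalarTower.algebraMap_apply (𝓞 k) k L,
          ← IsScalarTower.algebraMap_apply (𝓞 k) (𝓞 L) L]
      change algebraMap (𝓞 L) L _ = _
      rw [map_mul, map_pow, h0]
    have e2 : ((a * u * j₀ ^ (B.natDegree + m) + b * v * j₀ ^ (A.natDegree + n) : 𝓞 L) : L) =
      (a : L) * (u : L) * (j₀ : L) ^ (B.natDegree + m) +
        (b : L) * (v : L) * (j₀ : L) ^ (A.natDegree + n) := rfl
    have e3 : ((j₀ ^ A.natDegree : 𝓞 L) : L) = (j₀ : L) ^ A.natDegree := rfl
    have e4 : ((j₀ ^ B.natDegree : 𝓞 L) : L) = (j₀ : L) ^ B.natDegree := rfl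
    have h1 := congrArg (fun P : (𝓞 k)[X] => aeval x (P.map (algebraMap (𝓞 k) k))) hAB
    simp only [Polynomial.map_add, Polynomial.map_mul, map_C, map_add, map_mul, aeval_C] at h1
    rw [e1, e2, ha, hb, hu, hv, e3, e4, ← h1]
    ring
  have h2 : algebraMap (𝓞 k) (𝓞 L) d * j₀ ^ (A.natDegree + B.natDegree + n + m) ∈ q := by
    rw [key]
    exact Ideal.add_mem _ (Ideal.mul_mem_right _ _ (Ideal.mul_mem_left _ _ huq))
      (Ideal.mul_mem_right _ _ (Ideal.mul_mem_left _ _ hvq))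
  rcases hq.mem_or_mem h2 with h3 | h3
  · exact h3
  · exact absurd (hq.mem_of_pow_mem _ h3) hj₀q

/-- a rational prime which divides the norm of an ideal exactly once -/
theorem exists_prime_of_norm {L : Type} [Field L] [NumberField L] (z : Ideal (𝓞 L)) (p : ℕ)
    (hp : p.Prime) (hdvd : p ∣ Ideal.absNorm z) (hnot : ¬ p ^ 2 ∣ Ideal.absNorm z) :
    ∃ q : Ideal (𝓞 L), q.IsPrime ∧ z ≤ q ∧ Ideal.absNorm q = p ∧ ¬ z ≤ q ^ 2 := by
  have hz0 : Ideal.absNorm z ≠ 0 := fun h => hnot (by rw [h]; exact dvd_zero _)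
  have key : ∀ w : Ideal (𝓞 L), w ≠ 0 → p ∣ Ideal.absNorm w →
      ∃ q : Ideal (𝓞 L), Prime q ∧ q ∣ w ∧ p ∣ Ideal.absNorm q := by
    intro w
    induction w using UniqueFactorizationMonoid.induction_on_prime with
    | h₁ => intro h; exact absurd rfl h
    | h₂ u hu =>
      intro _ h
      rw [Ideal.isUnit_iff] at hu
      rw [hu, Ideal.absNorm_top] at h
      exact absurd (Nat.dvd_one.1 h) hp.one_lt.ne'
    | h₃ a q ha hq ih =>
      intro _ h
      rw [map_mul, hp.dvd_mul] at h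
      rcases h with h | h
      · exact ⟨q, hq, dvd_mul_right _ _, h⟩
      · obtain ⟨q', h1, h2, h3⟩ := ih ha h
        exact ⟨q', h1, h2.mul_left _, h3⟩
  have hzne : z ≠ 0 := by
    rintro rfl
    apply hz0
    simp
  obtain ⟨q, hq, hqz, hpq⟩ := key z hzne hdvd
  have hqp : q.IsPrime := Ideal.isPrime_of_prime hq
  refine ⟨q, hqp, Ideal.dvd_iff_le.1 hqz, ?_, ?_⟩
  · -- the norm is a power of a prime which divides exactly once
    have h1 : Ideal.absNorm q ∣ Ideal.absNorm z := map_dvd _ hqz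
    have hmax : q.IsMaximal := hqp.isMaximal hq.ne_zero
    obtain ⟨p', f, hf, -, hp', hpf⟩ := Ideal.exists_prime_and_absNorm_eq_pow q
    rw [hpf] at hpq h1
    have h2 : p = p' := (Nat.prime_dvd_prime_iff_eq hp hp').1 (hp.dvd_of_dvd_pow hpq)
    subst h2
    have h3 : f = 1 := by
      by_contra h3
      exact hnot ((pow_dvd_pow p (by omega)).trans h1)
    rw [hpf, h3, pow_one]
  · intro h
    have h1 : q ^ 2 ∣ z := Ideal.dvd_iff_le.2 h
    have h2 : Ideal.absNorm q ^ 2 ∣ Ideal.absNorm z := by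
      rw [← map_pow]
      exact map_dvd _ h1
    exact hnot ((pow_dvd_pow_of_dvd hpq 2).trans h2)

end rel

end Pool.Agent.SS
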