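import Pool.Agent.SS.DiscA

/-!
# Ramification
-/

set_option autoImplicit false

open Polynomial NumberField Module

namespace Pool.Agent.SS

section

variable {L : Type} [Field L] [NumberField L]

/-- a factor outside a maximal ideal can be removed -/
theorem pow_cancel (q : Ideal (𝓞 L)) (hq : q.IsMaximal) (n : ℕ) (a s : 𝓞 L) (hs : s ∉ q)
    (h : a * s ∈ q ^ n) : a ∈ q ^ n := by
  have h1 : IsCoprime (q ^ n) (Ideal.span {s}) := by
    refine IsCoprime.pow_left ?_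
    rw [Ideal.isCoprime_iff_sup_eq]
    refine hq.1.2 _ ?_
    refine lt_of_le_of_ne le_sup_left fun h2 => hs ?_
    rw [h2]
    exact Ideal.mem_sup_right (Ideal.mem_span_singleton_self s)
  have h2 : q ^ n ∣ Ideal.span {a} * Ideal.span {s} := by
    rw [Ideal.span_singleton_mul_span_singleton, Ideal.dvd_span_singleton]
    exact h
  have h3 := h1.dvd_of_dvd_mul_right h2
  rwa [Ideal.dvd_span_singleton] at h3

/-- a rational prime and a bad integer -/
theorem bad_dvd (k : Type) [Field k] [NumberField k] [Algebra k L] (q : Ideal (𝓞 L))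
    (hq : q.IsPrime) (p : ℕ) (hp : p.Prime) (hnq : Ideal.absNorm q = p) (b : 𝓞 k)
    (hb : algebraMap (𝓞 k) (𝓞 L) b ∈ q) : p ∣ (Algebra.norm ℤ b).natAbs := by
  by_contra hnot
  have h1 : ((p : ℕ) : 𝓞 L) ∈ q := by
    rw [← hnq]
    exact Ideal.absNorm_mem q
  have h2 : (((Algebra.norm ℤ b).natAbs : ℕ) : 𝓞 L) ∈ q := by
    have h3 := Ideal.absNorm_mem (Ideal.span {b})
    rw [Ideal.absNorm_span_singleton, Ideal.mem_span_singleton] at h3
    obtain ⟨c, hc⟩ := h3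
    have h4 : (((Algebra.norm ℤ b).natAbs : ℕ) : 𝓞 L) =
        algebraMap (𝓞 k) (𝓞 L) (((Algebra.norm ℤ b).natAbs : ℕ) : 𝓞 k) := by
      rw [map_natCast]
    rw [h4, hc, map_mul]
    exact Ideal.mul_mem_right _ _ hb
  have h3 : Nat.Coprime p (Algebra.norm ℤ b).natAbs := (Nat.Prime.coprime_iff_not_dvd hp).2 hnot
  have h4 := Nat.isCoprime_iff_coprime.2 h3
  obtain ⟨u, v, huv⟩ := h4
  apply hq.ne_top
  rw [Ideal.eq_top_iff_one]
  have h5 : (1 : 𝓞 L) = (u : 𝓞 L) * ((p : ℕ) : 𝓞 L) +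
      (v : 𝓞 L) * (((Algebra.norm ℤ b).natAbs : ℕ) : 𝓞 L) := by
    have := congrArg (fun z : ℤ => (z : 𝓞 L)) huv
    push_cast at this
    simpa using this.symm
  rw [h5]
  exact Ideal.add_mem _ (Ideal.mul_mem_left _ _ h1) (Ideal.mul_mem_left _ _ h2)

/-- the norm of a prime above `p` -/
theorem norm_above {K : Type} [Field K] [NumberField K] (Q : Ideal (𝓞 K)) (hQ : Q.IsPrime) (p : ℕ)
    (hp : p.Prime) (h : ((p : ℕ) : 𝓞 K) ∈ Q) : p ≤ Ideal.absNorm Q := by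
  have h1 : Ideal.absNorm Q ∣ p ^ finrank ℚ K := by
    have h2 : Q ∣ Ideal.span {((p : ℕ) : 𝓞 K)} := Ideal.dvd_span_singleton.2 h
    have h3 := map_dvd Ideal.absNorm h2
    rw [Ideal.absNorm_span_singleton] at h3
    have h6 : ((p : ℕ) : 𝓞 K) = algebraMap ℤ (𝓞 K) p := by simp
    rwa [h6, Algebra.norm_algebraMap, RingOfIntegers.rank, Int.natAbs_pow,
      Int.natAbs_natCast] at h3
  obtain ⟨s, -, hs⟩ := (Nat.dvd_prime_pow hp).1 h1
  have h2 : Ideal.absNorm Q ≠ 1 := by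
    rw [Ne, Ideal.absNorm_eq_one_iff]
    exact hQ.ne_top
  have h3 : s ≠ 0 := by
    rintro rfl
    exact h2 (by rw [hs, pow_zero])
  rw [hs]
  exact Nat.le_self_pow h3 p

/-- ramification -/
theorem ramified {K : Type} [Field K] [NumberField K] [Algebra L K] (N : ℕ)
    (q : Ideal (𝓞 L)) (hq : q.IsMaximal) (W : 𝓞 L) (hW : W ∈ q) (hW2 : W ∉ q ^ 2)
    (u : 𝓞 L) (hu : u ∉ q) (Y : 𝓞 K) (hY : Y ^ N = algebraMap (𝓞 L) (𝓞 K) (W * u)) :
    ∃ Q : Ideal (𝓞 K), Q.IsMaximal ∧ Q.comap (algebraMap (𝓞 L) (𝓞 K)) = q ∧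
      Q ^ N ∣ q.map (algebraMap (𝓞 L) (𝓞 K)) := by
  obtain ⟨Q, hQ, hQq⟩ := Ideal.exists_ideal_over_maximal_of_isIntegral (S := 𝓞 K) q (by
    intro a ha
    have h0 : algebraMap (𝓞 L) (𝓞 K) a = 0 := ha
    have h1 : a = 0 := by
      have hinj : Function.Injective (algebraMap (𝓞 L) (𝓞 K)) :=
        FaithfulSMul.algebraMap_injective _ _
      exact hinj (by rw [h0, map_zero])
    rw [h1]
    exact Ideal.zero_mem _)
  refine ⟨Q, hQ, hQq, ?_⟩
  have hYQ : Y ∈ Q := by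
    refine hQ.isPrime.mem_of_pow_mem N ?_
    rw [hY]
    have h1 : W * u ∈ Q.comap (algebraMap (𝓞 L) (𝓞 K)) := by
      rw [hQq]
      exact Ideal.mul_mem_right _ _ hW
    exact h1
  have h1 : Q ^ N ∣ Ideal.span {Y ^ N} := Ideal.dvd_span_singleton.2 (Ideal.pow_mem_pow hYQ N)
  obtain ⟨B, hB⟩ := Ideal.dvd_span_singleton.2 hW
  have hqB : ¬ q ∣ B := by
    rintro ⟨B', rfl⟩
    apply hW2
    rw [← Ideal.dvd_span_singleton, hB, pow_two]
    exact ⟨B', by ring⟩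
  have hmap : ∀ a : 𝓞 L, Ideal.map (algebraMap (𝓞 L) (𝓞 K)) (Ideal.span {a}) =
      Ideal.span {algebraMap (𝓞 L) (𝓞 K) a} := by
    intro a
    rw [Ideal.map_span, Set.image_singleton]
  rw [hY, map_mul, ← Ideal.span_singleton_mul_span_singleton, ← hmap, ← hmap, hB, Ideal.map_mul,
    mul_assoc] at h1
  -- an ideal which is not divisible by `q`
  have hcop : ∀ I : Ideal (𝓞 L), ¬ I ≤ q → IsCoprime Q (I.map (algebraMap (𝓞 L) (𝓞 K))) := by
    intro I hI
    rw [Ideal.isCoprime_iff_sup_eq]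
    refine hQ.1.2 _ (lt_of_le_of_ne le_sup_left fun h2 => hI ?_)
    rw [← hQq, ← Ideal.map_le_iff_le_comap, h2]
    exact le_sup_right
  have h2 : IsCoprime (Q ^ N) (B.map (algebraMap (𝓞 L) (𝓞 K)) *
      (Ideal.span {u}).map (algebraMap (𝓞 L) (𝓞 K))) := by
    refine IsCoprime.pow_left (IsCoprime.mul_right (hcop B fun h => hqB (Ideal.dvd_iff_le.2 h))
      (hcop _ fun h => hu (h (Ideal.mem_span_singleton_self u))))
  exact h2.dvd_of_dvd_mul_right h1

end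

end Pool.Agent.SS
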