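import Pool.Agent.RefW.DenIdeal
import Mathlib.RingTheory.FractionalIdeal.Norm

/-!
# The ideal of the zeros of a polynomial at a point

`J = denIdealOf x` is the denominator ideal of `x`; the ideal `zid f n x = f(x) J ^ n` for a
polynomial `f` with integral coefficients of degree at most `n`.
-/

set_option autoImplicit false

open Polynomial NumberField Module

namespace Pool.Agent.SS

section

variable {L : Type} [Field L] [NumberField L]

/-- the ideal of the zeros -/
def zid (y : L) (n : ℕ) (x : L) : Ideal (𝓞 L) where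
  carrier := {w | ∃ j ∈ (RefW.denIdealOf x) ^ n, (w : L) = y * (j : L)}
  add_mem' := by
    rintro a b ⟨s, hs, hs'⟩ ⟨t, ht, ht'⟩
    refine ⟨s + t, Ideal.add_mem _ hs ht, ?_⟩
    have e1 : ((s + t : 𝓞 L) : L) = (s : L) + (t : L) := rfl
    have e2 : ((a + b : 𝓞 L) : L) = (a : L) + (b : L) := rfl
    rw [e1, e2, hs', ht']
    ring
  zero_mem' := ⟨0, Ideal.zero_mem _, by simp⟩
  smul_mem' := by
    rintro c b ⟨t, ht, ht'⟩
    refine ⟨c * t, Ideal.mul_mem_left _ _ ht, ?_⟩
    have e1 : ((c * t : 𝓞 L) : L) = (c : L) * (t : L) := rfl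
    have e2 : ((c • b : 𝓞 L) : L) = (c : L) * (b : L) := rfl
    rw [e1, e2, ht']
    ring

theorem mem_zid {y : L} {n : ℕ} {x : L} {w : 𝓞 L} :
    w ∈ zid y n x ↔ ∃ j ∈ (RefW.denIdealOf x) ^ n, (w : L) = y * (j : L) := Iff.rfl

theorem mem_den {x : L} {b : 𝓞 L} :
    b ∈ RefW.denIdealOf x ↔ ∃ t : 𝓞 L, (t : L) = (b : L) * x := Iff.rfl

/-- the products with the powers of `x` are integral -/
theorem pow_integral {x : L} (n : ℕ) : ∀ i ≤ n, ∀ j ∈ (RefW.denIdealOf x) ^ n,
    ∃ t : 𝓞 L, (t : L) = x ^ i * (j : L) := by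
  induction n with
  | zero =>
    intro i hi j _
    have : i = 0 := by omega
    subst this
    exact ⟨j, by simp⟩
  | succ n ih =>
    intro i hi j hj
    rw [pow_succ] at hj
    refine Submodule.mul_induction_on hj ?_ ?_
    · intro a ha b hb
      rcases Nat.lt_or_ge n i with h | h
      · have hi' : i = n + 1 := by omega
        subst hi'
        obtain ⟨t, ht⟩ := ih n le_rfl a ha
        obtain ⟨s, hs⟩ := hb
        refine ⟨t * s, ?_⟩
        have e1 : ((t * s : 𝓞 L) : L) = (t : L) * (s : L) := rfl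
        have e2 : ((a * b : 𝓞 L) : L) = (a : L) * (b : L) := rfl
        rw [e1, e2, ht, hs]
        ring
      · obtain ⟨t, ht⟩ := ih i h a ha
        refine ⟨t * b, ?_⟩
        have e1 : ((t * b : 𝓞 L) : L) = (t : L) * (b : L) := rfl
        have e2 : ((a * b : 𝓞 L) : L) = (a : L) * (b : L) := rfl
        rw [e1, e2, ht]
        ring
    · rintro a b ⟨s, hs⟩ ⟨t, ht⟩
      refine ⟨s + t, ?_⟩
      have e1 : ((s + t : 𝓞 L) : L) = (s : L) + (t : L) := rfl
      have e2 : ((a + b : 𝓞 L) : L) = (a : L) + (b : L) := rfl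
      rw [e1, e2, hs, ht]
      ring

/-- the products with the values of integral polynomials are integral -/
theorem eval_integral {x : L} (n : ℕ) (f : (𝓞 L)[X]) (hf : f.natDegree ≤ n) :
    ∀ j ∈ (RefW.denIdealOf x) ^ n, ∃ t : 𝓞 L, (t : L) = aeval x f * (j : L) := by
  intro j hj
  have h1 : ∀ i : ℕ, ∃ t : 𝓞 L, i ≤ n → (t : L) = x ^ i * (j : L) := by
    intro i
    by_cases hi : i ≤ n
    · obtain ⟨t, ht⟩ := pow_integral n i hi j hj
      exact ⟨t, fun _ => ht⟩
    · exact ⟨0, fun h => absurd h hi⟩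
  choose t ht using h1
  refine ⟨∑ i ∈ Finset.range (n + 1), f.coeff i * t i, ?_⟩
  rw [aeval_eq_sum_range' (n := n + 1) (by omega), Finset.sum_mul]
  change algebraMap (𝓞 L) L (∑ i ∈ Finset.range (n + 1), f.coeff i * t i) = _
  rw [map_sum]
  refine Finset.sum_congr rfl fun i hi => ?_
  rw [map_mul, Algebra.smul_def]
  have h2 : algebraMap (𝓞 L) L (t i) = x ^ i * (j : L) := ht i (by
    rw [Finset.mem_range] at hi
    omega)
  rw [h2]
  ring

/-- the denominator ideal is prime to the numerator ideal -/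
theorem den_eq {x : L} (c a : 𝓞 L) (J : Ideal (𝓞 L)) (ha : a ≠ 0) (hca : (c : L) = (a : L) * x)
    (hJ : Ideal.span {a} = Ideal.span {c, a} * J) : J = RefW.denIdealOf x := by
  have haK : (a : L) ≠ 0 := by
    intro h
    exact ha (by exact_mod_cast h)
  refine le_antisymm ?_ ?_
  · intro j hj
    have h1 : c * j ∈ Ideal.span {a} := by
      rw [hJ]
      exact Ideal.mul_mem_mul (Ideal.subset_span (by simp)) hj
    obtain ⟨t, ht⟩ := Ideal.mem_span_singleton.1 h1
    refine ⟨t, ?_⟩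
    have h2 : (c : L) * (j : L) = (a : L) * (t : L) := by
      have := congrArg (fun z : 𝓞 L => (z : L)) ht
      simpa using this
    rw [hca] at h2
    apply mul_left_cancel₀ haK
    rw [← h2]
    ring
  · intro b hb
    obtain ⟨t, ht⟩ := hb
    have h0 : Ideal.span {c, a} ≠ 0 := by
      intro h
      apply ha
      have : a ∈ Ideal.span {c, a} := Ideal.subset_span (by simp)
      rw [h] at this
      exact this
    have h1 : Ideal.span {c, a} * J ∣ Ideal.span {c, a} * Ideal.span {b} := by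
      rw [← hJ, Ideal.dvd_iff_le, Ideal.mul_le]
      intro u hu v hv
      obtain ⟨r, s, rfl⟩ := Ideal.mem_span_pair.1 hu
      obtain ⟨w, rfl⟩ := Ideal.mem_span_singleton.1 hv
      rw [Ideal.mem_span_singleton]
      refine ⟨(r * t + s * b) * w, ?_⟩
      have h2 : c * b = a * t := by
        apply RingOfIntegers.ext
        change (c : L) * (b : L) = (a : L) * (t : L)
        rw [hca, ht]
        ring
      linear_combination r * w * h2
    have h2 := (mul_dvd_mul_iff_left h0).1 h1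
    rw [Ideal.dvd_iff_le] at h2
    exact h2 (Ideal.mem_span_singleton_self b)

/-- a representation of `x` -/
theorem exists_repr (x : L) : ∃ c a : 𝓞 L, a ≠ 0 ∧ (c : L) = (a : L) * x ∧
    Ideal.span {a} = Ideal.span {c, a} * RefW.denIdealOf x := by
  obtain ⟨c, a, ha, hxca⟩ := IsFractionRing.div_surjective (𝓞 L) x
  have ha0 : a ≠ 0 := nonZeroDivisors.ne_zero ha
  have haK : (a : L) ≠ 0 := by
    intro h
    exact ha0 (by exact_mod_cast h)
  have hcK : (c : L) = (a : L) * x := by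
    rw [← hxca]
    exact (mul_div_cancel₀ _ haK).symm
  have hdvd : Ideal.span {c, a} ∣ Ideal.span {a} := by
    rw [Ideal.dvd_iff_le, Ideal.span_singleton_le_iff_mem]
    exact Ideal.subset_span (by simp)
  obtain ⟨J, hJ⟩ := hdvd
  refine ⟨c, a, ha0, hcK, ?_⟩
  rw [← den_eq c a J ha0 hcK hJ]
  exact hJ

/-- the denominator ideal and its product with `x` are coprime -/
theorem den_coprime (x : L) : ∃ j₁ ∈ RefW.denIdealOf x, ∃ j₂ ∈ RefW.denIdealOf x, ∃ t : 𝓞 L,
    (t : L) = (j₂ : L) * x ∧ j₁ + t = 1 := by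
  obtain ⟨c, a, ha, hca, hJ⟩ := exists_repr x
  have haK : (a : L) ≠ 0 := by
    intro h
    exact ha (by exact_mod_cast h)
  have h1 : a ∈ Ideal.span {c, a} * RefW.denIdealOf x := by
    rw [← hJ]
    exact Ideal.mem_span_singleton_self a
  -- every element of the product is `c j₂ + a j₁`
  have h2 : ∀ u ∈ Ideal.span {c, a} * RefW.denIdealOf x, ∃ j₁ ∈ RefW.denIdealOf x,
      ∃ j₂ ∈ RefW.denIdealOf x, u = c * j₂ + a * j₁ := by
    intro u hu
    refine Submodule.mul_induction_on hu ?_ ?_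
    · intro v hv j hj
      obtain ⟨r, s, rfl⟩ := Ideal.mem_span_pair.1 hv
      exact ⟨s * j, Ideal.mul_mem_left _ _ hj, r * j, Ideal.mul_mem_left _ _ hj, by ring⟩
    · rintro _ _ ⟨j₁, h1, j₂, h2, rfl⟩ ⟨j₁', h1', j₂', h2', rfl⟩
      exact ⟨j₁ + j₁', Ideal.add_mem _ h1 h1', j₂ + j₂', Ideal.add_mem _ h2 h2', by ring⟩
  obtain ⟨j₁, hj₁, j₂, hj₂, hu⟩ := h2 a h1
  obtain ⟨t, ht⟩ := hj₂
  refine ⟨j₁, hj₁, j₂, ⟨t, ht⟩, t, ht, ?_⟩
  apply RingOfIntegers.ext
  apply mul_left_cancel₀ haK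
  have h3 : (a : L) = (c : L) * (j₂ : L) + (a : L) * (j₁ : L) := by
    have := congrArg (fun z : 𝓞 L => (z : L)) hu
    simpa using this
  have e1 : ((j₁ + t : 𝓞 L) : L) = (j₁ : L) + (t : L) := rfl
  have e2 : ((1 : 𝓞 L) : L) = 1 := rfl
  rw [e1, e2, ht, mul_one]
  rw [hca] at h3
  linear_combination -h3

open scoped nonZeroDivisors in
/-- the norm of the ideal of the zeros -/
theorem absNorm_zid (x : L) (n : ℕ) (y : L)
    (hint : ∀ j ∈ (RefW.denIdealOf x) ^ n, ∃ t : 𝓞 L, (t : L) = y * (j : L)) :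
    (Ideal.absNorm (zid y n x) : ℚ) =
      |Algebra.norm ℚ y| * (Ideal.absNorm (RefW.denIdealOf x) : ℚ) ^ n := by
  have h1 : ((zid y n x : Ideal (𝓞 L)) : FractionalIdeal (𝓞 L)⁰ L) =
      FractionalIdeal.spanSingleton (𝓞 L)⁰ y *
        (((RefW.denIdealOf x) ^ n : Ideal (𝓞 L)) : FractionalIdeal (𝓞 L)⁰ L) := by
    ext z
    rw [FractionalIdeal.mem_coeIdeal, FractionalIdeal.mem_singleton_mul]
    constructor
    · rintro ⟨w, ⟨j, hj, hw⟩, rfl⟩
      exact ⟨j, (FractionalIdeal.mem_coeIdeal _).2 ⟨j, hj, rfl⟩, hw⟩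
    · rintro ⟨z', hz', rfl⟩
      obtain ⟨j, hj, rfl⟩ := (FractionalIdeal.mem_coeIdeal _).1 hz'
      obtain ⟨t, ht⟩ := hint j hj
      exact ⟨t, ⟨j, hj, ht⟩, ht⟩
  have h2 := congrArg FractionalIdeal.absNorm h1
  rw [map_mul, FractionalIdeal.coeIdeal_absNorm, FractionalIdeal.coeIdeal_absNorm,
    FractionalIdeal.absNorm_span_singleton, map_pow] at h2
  push_cast at h2
  exact h2

/-- the height by the denominator ideal -/
theorem height_den (x : L) : Height.mulHeight₁ x =
    (Ideal.absNorm (RefW.denIdealOf x) : ℝ) * ∏ σ : L →+* ℂ, max 1 ‖σ x‖ := by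
  obtain ⟨c, a, ha0, hcK, hJ⟩ := exists_repr x
  have haK : (a : L) ≠ 0 := by
    intro h
    exact ha0 (by exact_mod_cast h)
  have h2 : (Ideal.absNorm (Ideal.span {c, a}) : ℝ) * Ideal.absNorm (RefW.denIdealOf x) =
      ∏ σ : L →+* ℂ, ‖σ (a : L)‖ := by
    rw [← Nat.cast_mul, ← map_mul, ← hJ, Ideal.absNorm_span_singleton]
    have h3 := InfinitePlace.prod_eq_abs_norm (a : L)
    rw [RefW.denIdeal_prod_infinite L (fun v => v (a : L))] at h3
    simp only [InfinitePlace.apply] at h3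
    rw [h3, ← Algebra.coe_norm_int]
    push_cast
    rw [Nat.cast_natAbs, Int.cast_abs]
  have hne : (![c, a] : Fin 2 → 𝓞 L) ≠ 0 := fun h => ha0 (congrFun h 1)
  have hne' : (![(c : L), (a : L)] : Fin 2 → L) ≠ 0 := fun h => haK (congrFun h 1)
  have hfin := absNorm_mul_finprod_finitePlace_eq_one hne
  have hrange : Set.range ![c, a] = {c, a} := by
    simp [Matrix.range_cons, Matrix.range_empty, Set.pair_comm]
  have hcoe : (fun i => ((![c, a] i : 𝓞 L) : L)) = ![(c : L), (a : L)] := by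
    funext i
    fin_cases i <;> rfl
  have hfin' : (Ideal.absNorm (Ideal.span {c, a}) : ℝ) *
      ∏ᶠ v : FinitePlace L, ⨆ i, v (![(c : L), (a : L)] i) = 1 := by
    rw [← hcoe, ← hrange]
    exact hfin
  have hH : Height.mulHeight₁ x = Height.mulHeight ![(c : L), (a : L)] := by
    rw [← Height.mulHeight₁_div_eq_mulHeight, hcK, mul_div_cancel_left₀ _ haK]
  rw [mulHeight_eq hne'] at hH
  have hsup : ∀ v : InfinitePlace L, (⨆ i, v (![(c : L), (a : L)] i)) =
      v (a : L) * max 1 (v x) := by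
    intro v
    have h1 : (⨆ i, v (![(c : L), (a : L)] i)) = max (v (c : L)) (v (a : L)) := by
      refine le_antisymm (ciSup_le fun i => ?_) ?_
      · fin_cases i
        · exact le_max_left _ _
        · exact le_max_right _ _
      · have hbd : BddAbove (Set.range fun i => v (![(c : L), (a : L)] i)) :=
          Set.Finite.bddAbove (Set.finite_range _)
        exact max_le (le_ciSup hbd 0) (le_ciSup hbd 1)
    rw [h1, hcK, map_mul, mul_max_of_nonneg _ _ (apply_nonneg v (a : L)), mul_one, max_comm]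
  have hP : ∏ v : InfinitePlace L, (⨆ i, v (![(c : L), (a : L)] i)) ^ v.mult =
      (∏ σ : L →+* ℂ, ‖σ (a : L)‖) * ∏ σ : L →+* ℂ, max 1 ‖σ x‖ := by
    rw [RefW.denIdeal_prod_infinite L (fun v => ⨆ i, v (![(c : L), (a : L)] i)),
      ← Finset.prod_mul_distrib]
    refine Finset.prod_congr rfl fun σ _ => ?_
    rw [hsup, InfinitePlace.apply, InfinitePlace.apply]
  rw [hH, hP, ← h2]
  set Q : ℝ := ∏ᶠ v : FinitePlace L, ⨆ i, v (![(c : L), (a : L)] i)
  set M : ℝ := ∏ σ : L →+* ℂ, max 1 ‖σ x‖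
  linear_combination (Ideal.absNorm (RefW.denIdealOf x) : ℝ) * M * hfin'

/-- the logarithm of the norm of the ideal of the zeros -/
theorem log_zid (x : L) (n : ℕ) (y : L) (hy : y ≠ 0)
    (hint : ∀ j ∈ (RefW.denIdealOf x) ^ n, ∃ t : 𝓞 L, (t : L) = y * (j : L)) :
    Real.log (Ideal.absNorm (zid y n x)) = n * Height.logHeight₁ x -
      ∑ σ : L →+* ℂ, (n * Real.log (max 1 ‖σ x‖) - Real.log ‖σ y‖) := by
  have h1 := absNorm_zid x n y hint
  have h2 : (Ideal.absNorm (zid y n x) : ℝ) =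
      (∏ σ : L →+* ℂ, ‖σ y‖) * (Ideal.absNorm (RefW.denIdealOf x) : ℝ) ^ n := by
    have h3 := congrArg (fun q : ℚ => (q : ℝ)) h1
    push_cast at h3
    rw [h3]
    congr 1
    have h4 := InfinitePlace.prod_eq_abs_norm y
    rw [RefW.denIdeal_prod_infinite L (fun v => v y)] at h4
    simp only [InfinitePlace.apply] at h4
    rw [← Rat.cast_abs]
    exact h4.symm
  have hm : ∀ σ : L →+* ℂ, max 1 ‖σ x‖ ≠ 0 := fun σ =>
    (lt_of_lt_of_le one_pos (le_max_left _ _)).ne'
  have hσ : ∀ σ : L →+* ℂ, ‖σ y‖ ≠ 0 := fun σ => by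
    rw [norm_ne_zero_iff]
    exact (map_ne_zero σ).2 hy
  have hJ : (Ideal.absNorm (RefW.denIdealOf x) : ℝ) ≠ 0 := by
    have := (RefW.denIdeal_norm_le x).1
    rw [Nat.cast_ne_zero, Ne, Ideal.absNorm_eq_zero_iff]
    exact this
  have h5 : Height.logHeight₁ x = Real.log (Ideal.absNorm (RefW.denIdealOf x) : ℝ) +
      ∑ σ : L →+* ℂ, Real.log (max 1 ‖σ x‖) := by
    rw [Height.logHeight₁_eq_log_mulHeight₁, height_den, Real.log_mul hJ
      (Finset.prod_ne_zero_iff.2 fun σ _ => hm σ), Real.log_prod fun σ _ => hm σ]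
  rw [h2, Real.log_mul (Finset.prod_ne_zero_iff.2 fun σ _ => hσ σ) (pow_ne_zero _ hJ),
    Real.log_prod fun σ _ => hσ σ, Real.log_pow, h5, Finset.sum_sub_distrib, ← Finset.mul_sum]
  ring

end

end Pool.Agent.SS
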